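import Pool.Agent.TOR4.Defs
import Pool.Agent.ASP87.OPWc
import Pool.Agent.ASP87.TTr
import Pool.Agent.ASP87.TDisc
import Pool.Agent.ASP87.ExtBasic

/-!
# TOR4/DiscY: the disc version of `asph_YP`

`H z = R * dH z`, `K w = dK (w / R)`: `MF univ (ball 0 R) H`, `MF (ball 0 R) univ K` (from `exists_disc` by scaling:
the ratio is multiplied by `R` or `1/R`), inverse to each other. `S : Sys (Option β) β`, `src _ = none`,
`tgt p = some p`, `wt = w`, `ne = False`. `tr_homeo (H := K) (K := H)` for `j = some`, `x = b`: the space of `DY` (points of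
`GS S (ball 0 R)` with `some p` at `b p`) is homeomorphic to the same space for `univ` and `b' p = K (b p)`, which is
`YP b' w`; `b'` injective: `asph_YP`.
-/

namespace TOR4

open Complex Topology Set ASP87

/-- one point `c` in the disc with roots (`w p ≠ 0`) or logarithms (`w p = 0`) of `c - b p` -/
def DY {β : Type*} (R : ℝ) (b : β → ℂ) (w : β → ℕ) : Set (ℂ × (β → ℂ)) :=
  {y | ‖y.1‖ < R ∧ ∀ p, bw (w p) (y.2 p) = y.1 - b p}

private def dyS {β : Type} (w : β → ℕ) : Sys (Option β) β :=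
  ⟨fun _ => none, fun p => some p, w, fun _ _ => False⟩

private theorem dy_slice {β : Type} (w : β → ℕ) (D : Set ℂ) (x : β → ℂ) (hx : ∀ p, x p ∈ D) :
    Nonempty ({y : GS (dyS w) D // ∀ p, y.1.1 (some p) = x p} ≃ₜ
      {y : ℂ × (β → ℂ) // y.1 ∈ D ∧ ∀ p, bw (w p) (y.2 p) = y.1 - x p}) := by
  refine ⟨{
    toFun := fun y => ⟨(y.1.1.1 none, y.1.1.2), y.1.2.1 none, fun p => ?_⟩
    invFun := fun y => ⟨⟨(fun a => Option.elim a y.1.1 x, y.1.2), fun a => ?_, fun p => ?_,
      fun a b h => h.elim⟩, fun p => rfl⟩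
    left_inv := fun y => ?_
    right_inv := fun y => ?_
    continuous_toFun := ?_
    continuous_invFun := ?_ }⟩
  · have h := y.1.2.2.1 p
    have h2 : y.1.1.1 (some p) = x p := y.2 p
    have h3 : bw (w p) (y.1.1.2 p) = y.1.1.1 none - y.1.1.1 (some p) := h
    rw [h2] at h3
    exact h3
  · cases a with
    | none => exact y.2.1
    | some p => exact hx p
  · exact y.2.2 p
  · apply Subtype.ext
    apply Subtype.ext
    refine Prod.ext (funext fun a => ?_) rfl
    cases a with
    | none => rfl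
    | some p => exact (y.2 p).symm
  · rfl
  · refine Continuous.subtype_mk (Continuous.prodMk ?_ ?_) _
    · exact (continuous_apply none).comp
        (continuous_fst.comp (continuous_subtype_val.comp continuous_subtype_val))
    · exact continuous_snd.comp (continuous_subtype_val.comp continuous_subtype_val)
  · refine Continuous.subtype_mk (Continuous.subtype_mk (Continuous.prodMk ?_ ?_) _) _
    · refine continuous_pi fun a => ?_
      cases a with
      | none => exact continuous_fst.comp continuous_subtype_val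
      | some p => exact continuous_const
    · exact continuous_snd.comp continuous_subtype_val

private theorem dy_scale {R : ℝ} (hR : 0 < R) : ∃ H K : Unit → ℂ → ℂ,
    MF univ (Metric.ball (0 : ℂ) R) H ∧ MF (Metric.ball (0 : ℂ) R) univ K ∧
    (∀ z, K () (H () z) = z) ∧ ∀ z ∈ Metric.ball (0 : ℂ) R, H () (K () z) = z := by
  obtain ⟨H, K, hH, hK, hKH, hHK⟩ := exists_disc
  have hRc : (R : ℂ) ≠ 0 := by exact_mod_cast hR.ne'
  have hdiv : ∀ z ∈ Metric.ball (0 : ℂ) R, z / (R : ℂ) ∈ Metric.ball (0 : ℂ) 1 := by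
    intro z hz
    rw [mem_ball_zero_iff] at hz ⊢
    rw [norm_div, Complex.norm_real, Real.norm_of_nonneg hR.le, div_lt_one hR]
    exact hz
  refine ⟨fun n z => (R : ℂ) * H n z, fun n z => K n (z / (R : ℂ)), ⟨?_, ?_, ?_⟩, ⟨?_, ?_, ?_⟩,
    ?_, ?_⟩
  · exact continuousOn_const.mul hH.cont
  · intro n z hz
    have h1 := hH.maps n z hz
    rw [mem_ball_zero_iff] at h1 ⊢
    rw [norm_mul, Complex.norm_real, Real.norm_of_nonneg hR.le]
    nlinarith
  · intro n z hz z' hz' hne
    have h1 := hH.mono n z hz z' hz' hne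
    have h2 : ((R : ℂ) * H n z - (R : ℂ) * H n z') / (z - z') =
        (R : ℂ) * ((H n z - H n z') / (z - z')) := by ring
    rw [h2, re_ofReal_mul]
    exact mul_pos hR h1
  · refine hK.cont.comp (f := fun q : Unit × ℂ => (q.1, q.2 / (R : ℂ))) ?_ ?_
    · exact (continuous_fst.prodMk (continuous_snd.div_const _)).continuousOn
    · rintro ⟨n, z⟩ hq
      exact ⟨trivial, hdiv z hq.2⟩
  · intro n z hz
    exact mem_univ _
  · intro n z hz z' hz' hne
    have hne' : z / (R : ℂ) ≠ z' / (R : ℂ) := by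
      intro h
      apply hne
      field_simp at h
      exact h
    have h1 := hK.mono n _ (hdiv z hz) _ (hdiv z' hz') hne'
    have h0 : z / (R : ℂ) - z' / (R : ℂ) ≠ 0 := sub_ne_zero.2 hne'
    have h0' : z - z' ≠ 0 := sub_ne_zero.2 hne
    have h2 : (K n (z / (R : ℂ)) - K n (z' / (R : ℂ))) / (z - z') =
        ((R⁻¹ : ℝ) : ℂ) * ((K n (z / (R : ℂ)) - K n (z' / (R : ℂ))) /
          (z / (R : ℂ) - z' / (R : ℂ))) := by
      rw [← sub_div, div_div_eq_mul_div]
      push_cast
      field_simp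
    rw [h2, re_ofReal_mul]
    exact mul_pos (inv_pos.2 hR) h1
  · intro z
    show K () ((R : ℂ) * H () z / (R : ℂ)) = z
    rw [mul_div_cancel_left₀ _ hRc]
    exact hKH z
  · intro z hz
    show (R : ℂ) * H () (K () (z / (R : ℂ))) = z
    rw [hHK _ (hdiv z hz)]
    exact mul_div_cancel₀ _ hRc

theorem asph_DY {β : Type} [Fintype β] {R : ℝ} (hR : 0 < R) {b : β → ℂ} (hb : Function.Injective b)
    (hbR : ∀ p, ‖b p‖ < R) (w : β → ℕ) : Asph (DY R b w) := by
  classical
  obtain ⟨H, K, hH, hK, hKH, hHK⟩ := dy_scale hR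
  have hbD : ∀ p, b p ∈ Metric.ball (0 : ℂ) R := fun p => mem_ball_zero_iff.2 (hbR p)
  have hb' : Function.Injective (fun p => K () (b p)) := by
    intro p q h
    apply hb
    rw [← hHK _ (hbD p), ← hHK _ (hbD q)]
    exact congrArg (H ()) h
  obtain ⟨e1⟩ := dy_slice w (Metric.ball (0 : ℂ) R) b hbD
  obtain ⟨e2⟩ := tr_homeo (S := dyS w) hK hH (fun z hz => hHK z hz) (fun z _ => hKH z)
    (fun p : β => some p) b hbD
  obtain ⟨e3⟩ := dy_slice w univ (fun p => K () (b p)) (fun p => mem_univ _)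
  have hs1 : (DY R b w) = {y : ℂ × (β → ℂ) | y.1 ∈ Metric.ball (0 : ℂ) R ∧
      ∀ p, bw (w p) (y.2 p) = y.1 - b p} := by
    ext y
    simp only [DY, mem_ofPred_eq, mem_ball_zero_iff]
  have hs3 : (YP (fun p => K () (b p)) w) = {y : ℂ × (β → ℂ) | y.1 ∈ (univ : Set ℂ) ∧
      ∀ p, bw (w p) (y.2 p) = y.1 - K () (b p)} := by
    ext y
    simp only [YP, mem_ofPred_eq, mem_univ, true_and]
  have e : YP (fun p => K () (b p)) w ≃ₜ DY R b w :=
    (Homeomorph.setCongr hs3).trans
      (e3.symm.trans (e2.symm.trans (e1.trans (Homeomorph.setCongr hs1).symm)))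
  intro d hd
  exact ext_homeo e (asph_YP hb' w d hd)

end TOR4
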