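import Pool.Agent.TOR4.Defs

/-!
# TOR4/ProdCov: replacing a root of a product by roots of the factors is a covering

`X` a space, `π : β → ι` surjective, `β`, `ι` finite, `a p : X → ℂ` (`p : β`) continuous, two different `p, p'` over
the same `i` have no common zero; `v i : X → ℂ` continuous, nowhere zero.
`PS = {(x, s) : s_i^m = v_i(x)^m * ∏_{π p = i} a_p(x)}`, `PT = {(x, t) : t_p^m = a_p(x)}`,
`pq (x, t) = (x, s)`, `s_i = v_i(x) ∏_{π p = i} t_p`: a surjective covering map.
PROOF (like ASP87/LogCov): `(x0, s0) ∈ PS`. Choose a section `σ : ι → β` of `π` with `a_p(x0) ≠ 0` for all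
`p ≠ σ (π p)` (if some `p` over `i` has `a_p(x0) = 0` take `σ i = p`, otherwise any). `U = {x : a_p(x)/a_p(x0) ∈ slitPlane
for all p ≠ σ (π p)}` is open. `ρ_p(x) = exp ((log (a_p(x0)) + log (a_p(x)/a_p(x0))) / m)`, continuous on `U`,
`ρ_p^m = a_p`, `ρ_p ≠ 0`. Fibre `Fib = {p // p ≠ σ (π p)} → {k : ℂ // k^m = 1}` (finite, so discrete:
`Finite.instDiscreteTopology`; finiteness of the roots of unity: roots of `X^m - 1`). Homeomorphism of `pq⁻¹(U')`,
`U' = {y : PS | y.x ∈ U}`, with `U' × Fib`: `(x, t) ↦ (pq (x,t), t_p/ρ_p(x))`, inverse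
`((x, s), k) ↦ (x, t)`, `t_p = k_p ρ_p(x)` for `p ≠ σ (π p)`,
`t_{σ i} = s_i / (v_i(x) ∏_{π p = i, p ≠ σ i} k_p ρ_p(x))`. `IsEvenlyCovered` as in LogCov. Surjective: the same formula
with any roots (choose `σ` for the given `x`).
-/

namespace TOR4

open Complex Topology Set ASP87

variable {X ι β : Type*} [TopologicalSpace X] [Fintype β] [DecidableEq ι]

/-- roots of products -/
abbrev PS (m : ℕ) (π : β → ι) (a : β → X → ℂ) (v : ι → X → ℂ) : Type _ :=
  {z : X × (ι → ℂ) // ∀ i, z.2 i ^ m = v i z.1 ^ m * ∏ p ∈ Finset.univ.filter (fun p => π p = i), a p z.1}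

/-- roots of the factors -/
abbrev PT (m : ℕ) (a : β → X → ℂ) : Type _ := {z : X × (β → ℂ) // ∀ p, z.2 p ^ m = a p z.1}

/-- multiplication of the roots -/
noncomputable def pq (m : ℕ) (π : β → ι) (a : β → X → ℂ) (v : ι → X → ℂ) (z : PT m a) : PS m π a v :=
  ⟨(z.1.1, fun i => v i z.1.1 * ∏ p ∈ Finset.univ.filter (fun p => π p = i), z.1.2 p), fun i => by
    show (v i z.1.1 * _) ^ m = _
    rw [mul_pow, ← Finset.prod_pow]
    congr 1
    exact Finset.prod_congr rfl fun p _ => z.2 p⟩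

namespace PC

/-- root with a choice of branch near `a0` -/
noncomputable def rho (m : ℕ) (a0 a1 : ℂ) : ℂ := exp ((log a0 + log (a1 / a0)) / m)

theorem rho_ne (m : ℕ) (a0 a1 : ℂ) : rho m a0 a1 ≠ 0 := exp_ne_zero _

theorem rho_pow {m : ℕ} (hm : m ≠ 0) {a0 a1 : ℂ} (h0 : a0 ≠ 0) (h1 : a1 ≠ 0) :
    rho m a0 a1 ^ m = a1 := by
  have hm' : (m : ℂ) ≠ 0 := by exact_mod_cast hm
  unfold rho
  rw [← exp_nat_mul, mul_div_cancel₀ _ hm', exp_add, exp_log h0, exp_log (div_ne_zero h1 h0),
    mul_div_cancel₀ _ h0]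

variable {ι β : Type*} [Fintype β] [DecidableEq ι] [DecidableEq β]

/-- reconstruction of the roots of the factors -/
noncomputable def tt (π : β → ι) (σ : ι → β) (v s : ι → ℂ) (r : β → ℂ) (p : β) : ℂ :=
  if p = σ (π p) then
    s (π p) / (v (π p) * ∏ q ∈ (Finset.univ.filter (fun q => π q = π p)).erase (σ (π p)), r q)
  else r p

theorem tt_of_ne {π : β → ι} {σ : ι → β} {v s : ι → ℂ} {r : β → ℂ} {p : β} (h : p ≠ σ (π p)) :
    tt π σ v s r p = r p := if_neg h

theorem tt_sig {π : β → ι} {σ : ι → β} (hσ : ∀ i, π (σ i) = i) {v s : ι → ℂ} {r : β → ℂ}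
    (i : ι) : tt π σ v s r (σ i) =
      s i / (v i * ∏ q ∈ (Finset.univ.filter (fun q => π q = i)).erase (σ i), r q) := by
  unfold tt
  rw [hσ i, if_pos rfl]

theorem split_prod {π : β → ι} {σ : ι → β} (hσ : ∀ i, π (σ i) = i) (f : β → ℂ) (i : ι) :
    ∏ p ∈ Finset.univ.filter (fun p => π p = i), f p =
      f (σ i) * ∏ q ∈ (Finset.univ.filter (fun q => π q = i)).erase (σ i), f q := by
  rw [Finset.mul_prod_erase]
  rw [Finset.mem_filter]
  exact ⟨Finset.mem_univ _, hσ i⟩

theorem ne_of_mem {π : β → ι} {σ : ι → β} {i : ι} {q : β}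
    (h : q ∈ (Finset.univ.filter (fun q => π q = i)).erase (σ i)) : q ≠ σ (π q) := by
  rw [Finset.mem_erase, Finset.mem_filter] at h
  rw [h.2.2]
  exact h.1

theorem prod_ne {π : β → ι} {σ : ι → β} {r : β → ℂ} (hr : ∀ p, p ≠ σ (π p) → r p ≠ 0) (i : ι) :
    ∏ q ∈ (Finset.univ.filter (fun q => π q = i)).erase (σ i), r q ≠ 0 :=
  Finset.prod_ne_zero_iff.2 fun q hq => hr q (ne_of_mem hq)

theorem tt_prod {π : β → ι} {σ : ι → β} (hσ : ∀ i, π (σ i) = i) {v s : ι → ℂ} {r : β → ℂ}
    (hv : ∀ i, v i ≠ 0) (hr : ∀ p, p ≠ σ (π p) → r p ≠ 0) (i : ι) :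
    v i * ∏ p ∈ Finset.univ.filter (fun p => π p = i), tt π σ v s r p = s i := by
  rw [split_prod hσ, tt_sig hσ]
  have h1 : ∏ q ∈ (Finset.univ.filter (fun q => π q = i)).erase (σ i), tt π σ v s r q =
      ∏ q ∈ (Finset.univ.filter (fun q => π q = i)).erase (σ i), r q :=
    Finset.prod_congr rfl fun q hq => tt_of_ne (ne_of_mem hq)
  rw [h1]
  have h2 := prod_ne hr i
  have h3 := hv i
  field_simp

theorem tt_pow {π : β → ι} {σ : ι → β} (hσ : ∀ i, π (σ i) = i) {v s : ι → ℂ} {r c : β → ℂ} {m : ℕ}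
    (hv : ∀ i, v i ≠ 0) (hr : ∀ p, p ≠ σ (π p) → r p ≠ 0) (hrc : ∀ p, p ≠ σ (π p) → r p ^ m = c p)
    (hs : ∀ i, s i ^ m = v i ^ m * ∏ p ∈ Finset.univ.filter (fun p => π p = i), c p) (p : β) :
    tt π σ v s r p ^ m = c p := by
  by_cases h : p = σ (π p)
  · obtain ⟨i, hi⟩ : ∃ i, p = σ i := ⟨_, h⟩
    subst hi
    rw [tt_sig hσ, div_pow, hs, split_prod hσ, mul_pow, ← Finset.prod_pow]
    have h1 : ∏ q ∈ (Finset.univ.filter (fun q => π q = i)).erase (σ i), r q ^ m =
        ∏ q ∈ (Finset.univ.filter (fun q => π q = i)).erase (σ i), c q :=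
      Finset.prod_congr rfl fun q hq => hrc q (ne_of_mem hq)
    rw [h1]
    have h2 : ∏ q ∈ (Finset.univ.filter (fun q => π q = i)).erase (σ i), c q ≠ 0 := by
      rw [← h1, Finset.prod_pow]
      exact pow_ne_zero _ (prod_ne hr i)
    have h3 := pow_ne_zero m (hv i)
    field_simp
  · rw [tt_of_ne h, hrc p h]

theorem tt_self {π : β → ι} {σ : ι → β} (hσ : ∀ i, π (σ i) = i) {v s : ι → ℂ} {t : β → ℂ}
    (hv : ∀ i, v i ≠ 0) (ht : ∀ p, p ≠ σ (π p) → t p ≠ 0)
    (hs : ∀ i, v i * ∏ p ∈ Finset.univ.filter (fun p => π p = i), t p = s i) (p : β) :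
    tt π σ v s t p = t p := by
  by_cases h : p = σ (π p)
  · obtain ⟨i, hi⟩ : ∃ i, p = σ i := ⟨_, h⟩
    subst hi
    rw [tt_sig hσ, ← hs i, split_prod hσ]
    have h2 := prod_ne ht i
    have h3 := hv i
    field_simp
  · exact tt_of_ne h

theorem tt_congr {π : β → ι} {σ : ι → β} {v s : ι → ℂ} {r r' : β → ℂ}
    (h : ∀ p, p ≠ σ (π p) → r p = r' p) (p : β) : tt π σ v s r p = tt π σ v s r' p := by
  unfold tt
  by_cases hp : p = σ (π p)
  · rw [if_pos hp, if_pos hp]
    congr 2
    exact Finset.prod_congr rfl fun q hq => h q (ne_of_mem hq)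
  · rw [if_neg hp, if_neg hp, h p hp]

theorem exists_sigma {X : Type*} {π : β → ι} (hπ : Function.Surjective π) {a : β → X → ℂ}
    (hcz : ∀ x p p', p ≠ p' → π p = π p' → a p x = 0 → a p' x ≠ 0) (x0 : X) :
    ∃ σ : ι → β, (∀ i, π (σ i) = i) ∧ ∀ p, p ≠ σ (π p) → a p x0 ≠ 0 := by
  have h : ∀ i, ∃ p, π p = i ∧ ∀ q, π q = i → q ≠ p → a q x0 ≠ 0 := by
    intro i
    by_cases h : ∃ p, π p = i ∧ a p x0 = 0
    · obtain ⟨p, hp, hp0⟩ := h
      exact ⟨p, hp, fun q hq hne => hcz x0 p q hne.symm (hp.trans hq.symm) hp0⟩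
    · obtain ⟨p, hp⟩ := hπ i
      exact ⟨p, hp, fun q hq _ h0 => h ⟨q, hq, h0⟩⟩
  choose σ h1 h2 using h
  exact ⟨σ, h1, fun p hp => h2 (π p) p rfl hp⟩

theorem finite_roots {m : ℕ} (hm : m ≠ 0) : Finite {k : ℂ // k ^ m = 1} := by
  have h : ({k : ℂ | k ^ m = 1} : Set ℂ).Finite := by
    refine (Polynomial.nthRootsFinset m (1 : ℂ)).finite_toSet.subset ?_
    intro k hk
    rw [Finset.mem_coe, Polynomial.mem_nthRootsFinset (Nat.pos_of_ne_zero hm)]
    exact hk
  exact h.to_subtype

end PC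

theorem prodCov {m : ℕ} (hm : m ≠ 0) {π : β → ι} (hπ : Function.Surjective π) {a : β → X → ℂ}
    (ha : ∀ p, Continuous (a p)) (hcz : ∀ x p p', p ≠ p' → π p = π p' → a p x = 0 → a p' x ≠ 0)
    {v : ι → X → ℂ} (hv : ∀ i, Continuous (v i)) (hv0 : ∀ i x, v i x ≠ 0) :
    IsCoveringMap (pq m π a v) ∧ Function.Surjective (pq m π a v) := by
  classical
  have hpc : Continuous (pq m π a v) := by
    refine Continuous.subtype_mk (Continuous.prodMk (continuous_fst.comp continuous_subtype_val)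
      (continuous_pi fun i => ?_)) _
    refine Continuous.mul ((hv i).comp (continuous_fst.comp continuous_subtype_val)) ?_
    exact continuous_finsetProd _ fun p _ =>
      (continuous_apply p).comp (continuous_snd.comp continuous_subtype_val)
  refine ⟨?_, ?_⟩
  · intro y0
    obtain ⟨σ, hσ, hσ0⟩ := PC.exists_sigma hπ hcz y0.1.1
    set x0 := y0.1.1 with hx0def
    let U : Set (PS m π a v) := {y | ∀ p, p ≠ σ (π p) → a p y.1.1 / a p x0 ∈ slitPlane}
    have hU : IsOpen U := by
      have : U = ⋂ p, {y : PS m π a v | p ≠ σ (π p) → a p y.1.1 / a p x0 ∈ slitPlane} := by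
        ext x
        simp [U]
      rw [this]
      refine isOpen_iInter_of_finite fun p => ?_
      by_cases hp : p ≠ σ (π p)
      · have : {y : PS m π a v | p ≠ σ (π p) → a p y.1.1 / a p x0 ∈ slitPlane} =
            {y : PS m π a v | a p y.1.1 / a p x0 ∈ slitPlane} := by
          ext y
          simp [hp]
        rw [this]
        exact isOpen_slitPlane.preimage
          (((ha p).comp (continuous_fst.comp continuous_subtype_val)).div_const _)
      · have : {y : PS m π a v | p ≠ σ (π p) → a p y.1.1 / a p x0 ∈ slitPlane} = univ := by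
          ext y
          simp [hp]
        rw [this]
        exact isOpen_univ
    have hy0 : y0 ∈ U := by
      intro p hp
      rw [div_self (hσ0 p hp)]
      simp
    have hUne : ∀ y ∈ U, ∀ p, p ≠ σ (π p) → a p y.1.1 ≠ 0 := by
      intro y hy p hp h0
      have h1 := hy p hp
      rw [h0, zero_div] at h1
      simp at h1
    have hfin := PC.finite_roots hm
    -- branches
    obtain ⟨rr, hrr, hrr0, hrrc⟩ : ∃ rr : PS m π a v → β → ℂ,
        (∀ y ∈ U, ∀ p, p ≠ σ (π p) → rr y p ^ m = a p y.1.1) ∧ (∀ y p, rr y p ≠ 0) ∧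
        ∀ p, p ≠ σ (π p) → Continuous (fun y : U => rr y.1 p) := by
      refine ⟨fun y p => PC.rho m (a p x0) (a p y.1.1), fun y hy p hp =>
        PC.rho_pow hm (hσ0 p hp) (hUne y hy p hp), fun y p => PC.rho_ne _ _ _, ?_⟩
      intro p hp
      refine Continuous.cexp (Continuous.div_const (Continuous.add continuous_const ?_) _)
      refine Continuous.clog ?_ fun y => y.2 p hp
      exact ((ha p).comp (continuous_fst.comp (continuous_subtype_val.comp
        continuous_subtype_val))).div_const _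
    obtain ⟨kr, hkr⟩ : ∃ kr : U × ({p : β // p ≠ σ (π p)} → {k : ℂ // k ^ m = 1}) → β → ℂ,
        ∀ w p (h : p ≠ σ (π p)), kr w p = (w.2 ⟨p, h⟩ : ℂ) * rr w.1.1 p :=
      ⟨fun w p => if h : p ≠ σ (π p) then (w.2 ⟨p, h⟩ : ℂ) * rr w.1.1 p else 1,
        fun w p h => dif_pos h⟩
    have hkr0 : ∀ w p, p ≠ σ (π p) → kr w p ≠ 0 := by
      intro w p h
      rw [hkr w p h]
      refine mul_ne_zero ?_ (hrr0 _ _)
      intro h0
      have h1 := (w.2 ⟨p, h⟩).2
      rw [h0, zero_pow hm] at h1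
      exact zero_ne_one h1
    have hkrm : ∀ w p, p ≠ σ (π p) → kr w p ^ m = a p w.1.1.1.1 := by
      intro w p h
      rw [hkr w p h, mul_pow, (w.2 ⟨p, h⟩).2, one_mul, hrr _ w.1.2 p h]
    have hkrc : ∀ p, p ≠ σ (π p) → Continuous (fun w => kr w p) := by
      intro p hp
      have h1 : (fun w => kr w p) = fun w => (w.2 ⟨p, hp⟩ : ℂ) * rr w.1.1 p := by
        funext w
        exact hkr w p hp
      rw [h1]
      exact (continuous_subtype_val.comp ((continuous_apply _).comp continuous_snd)).mul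
        ((hrrc p hp).comp continuous_fst)
    obtain ⟨tv, htvd⟩ : ∃ tv : U × ({p : β // p ≠ σ (π p)} → {k : ℂ // k ^ m = 1}) → β → ℂ,
        ∀ w, tv w = PC.tt π σ (fun i => v i w.1.1.1.1) w.1.1.1.2 (kr w) := ⟨_, fun _ => rfl⟩
    have htv : ∀ w p, tv w p ^ m = a p w.1.1.1.1 := fun w p => by
      rw [htvd]
      exact PC.tt_pow hσ (fun i => hv0 i _) (hkr0 w) (hkrm w) (fun i => w.1.1.2 i) p
    have htvc : ∀ p, Continuous (fun w => tv w p) := by
      intro p
      by_cases hp : p = σ (π p)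
      · have h1 : (fun w => tv w p) = fun w =>
            w.1.1.1.2 (π p) / (v (π p) w.1.1.1.1 *
              ∏ q ∈ (Finset.univ.filter (fun q => π q = π p)).erase (σ (π p)), kr w q) := by
          funext w
          rw [htvd]
          exact if_pos hp
        rw [h1]
        refine Continuous.div ?_ (Continuous.mul ?_ ?_) fun w =>
          mul_ne_zero (hv0 _ _) (PC.prod_ne (hkr0 w) _)
        · exact (continuous_apply _).comp (continuous_snd.comp (continuous_subtype_val.comp
            (continuous_subtype_val.comp continuous_fst)))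
        · exact (hv _).comp (continuous_fst.comp (continuous_subtype_val.comp
            (continuous_subtype_val.comp continuous_fst)))
        · exact continuous_finsetProd _ fun q hq => hkrc q (PC.ne_of_mem hq)
      · have h1 : (fun w => tv w p) = fun w => kr w p := by
          funext w
          rw [htvd]
          exact if_neg hp
        rw [h1]
        exact hkrc p hp
    have hpqtv : ∀ w, pq m π a v ⟨(w.1.1.1.1, tv w), htv w⟩ = w.1.1 := by
      intro w
      refine Subtype.ext (Prod.ext rfl (funext fun i => ?_))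
      show v i w.1.1.1.1 * ∏ p ∈ Finset.univ.filter (fun p => π p = i), tv w p = w.1.1.1.2 i
      rw [htvd]
      exact PC.tt_prod hσ (v := fun i => v i w.1.1.1.1) (fun i => hv0 i _) (hkr0 w) i
    have htne : ∀ z : pq m π a v ⁻¹' U, ∀ p, p ≠ σ (π p) → z.1.1.2 p ≠ 0 := by
      intro z p hp h0
      have h1 := z.1.2 p
      rw [h0, zero_pow hm] at h1
      exact hUne _ z.2 p hp h1.symm
    have hkone : ∀ (z : pq m π a v ⁻¹' U) (p : {p : β // p ≠ σ (π p)}),
        (z.1.1.2 p.1 / rr (pq m π a v z.1) p.1) ^ m = 1 := by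
      intro z p
      rw [div_pow, hrr _ z.2 p.1 p.2, z.1.2 p.1]
      exact div_self (hUne _ z.2 p.1 p.2)
    have hL : ∀ (z : pq m π a v ⁻¹' U),
        tv (⟨pq m π a v z.1, z.2⟩, fun p => ⟨_, hkone z p⟩) = z.1.1.2 := by
      intro z
      funext p
      rw [htvd, PC.tt_congr (r' := z.1.1.2) ?_ p]
      · exact PC.tt_self hσ (v := fun i => v i z.1.1.1) (fun i => hv0 i _) (htne z)
          (fun i => rfl) p
      · intro q hq
        rw [hkr _ q hq]
        exact div_mul_cancel₀ _ (hrr0 _ _)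
    have hR : ∀ w (p : {p : β // p ≠ σ (π p)}), tv w p.1 / rr w.1.1 p.1 = w.2 p := by
      intro w p
      rw [htvd, PC.tt_of_ne p.2, hkr w p.1 p.2]
      exact mul_div_cancel_right₀ _ (hrr0 _ _)
    let H : pq m π a v ⁻¹' U ≃ₜ U × ({p : β // p ≠ σ (π p)} → {k : ℂ // k ^ m = 1}) :=
      { toFun := fun z => (⟨pq m π a v z.1, z.2⟩, fun p => ⟨_, hkone z p⟩)
        invFun := fun w => ⟨⟨(w.1.1.1.1, tv w), htv w⟩, by
          show pq m π a v _ ∈ U
          rw [hpqtv w]
          exact w.1.2⟩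
        left_inv := fun z => Subtype.ext (Subtype.ext (Prod.ext rfl (hL z)))
        right_inv := by
          intro w
          refine Prod.ext (Subtype.ext (hpqtv w)) (funext fun p => Subtype.ext ?_)
          show tv w p.1 / rr (pq m π a v ⟨(w.1.1.1.1, tv w), htv w⟩) p.1 = w.2 p
          rw [hpqtv w]
          exact hR w p
        continuous_toFun := by
          refine Continuous.prodMk ((hpc.comp continuous_subtype_val).subtype_mk _) ?_
          refine continuous_pi fun p => Continuous.subtype_mk ?_ _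
          refine Continuous.div ?_ ?_ fun z => hrr0 _ _
          · exact (continuous_apply p.1).comp (continuous_snd.comp (continuous_subtype_val.comp
              continuous_subtype_val))
          · exact (hrrc p.1 p.2).comp ((hpc.comp continuous_subtype_val).subtype_mk fun z => z.2)
        continuous_invFun := by
          refine Continuous.subtype_mk (Continuous.subtype_mk (Continuous.prodMk ?_
            (continuous_pi fun p => htvc p)) _) _
          exact continuous_fst.comp (continuous_subtype_val.comp (continuous_subtype_val.comp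
            continuous_fst)) }
    have hev : IsEvenlyCovered (pq m π a v) y0
        ({p : β // p ≠ σ (π p)} → {k : ℂ // k ^ m = 1}) :=
      ⟨inferInstance,
        U, hy0, hU, hU.preimage hpc, H, fun _ => rfl⟩
    exact hev.to_isEvenlyCovered_preimage
  · intro y
    obtain ⟨σ, hσ, hσ0⟩ := PC.exists_sigma hπ hcz y.1.1
    have hex : ∀ p, ∃ r : ℂ, r ^ m = a p y.1.1 := fun p =>
      IsAlgClosed.exists_pow_nat_eq _ (Nat.pos_of_ne_zero hm)
    choose r hr using hex
    have hr0 : ∀ p, p ≠ σ (π p) → r p ≠ 0 := by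
      intro p hp h0
      have h1 := hr p
      rw [h0, zero_pow hm] at h1
      exact hσ0 p hp h1.symm
    refine ⟨⟨(y.1.1, PC.tt π σ (fun i => v i y.1.1) y.1.2 r), fun p =>
      PC.tt_pow hσ (fun i => hv0 i _) hr0 (fun p _ => hr p) (fun i => y.2 i) p⟩, ?_⟩
    refine Subtype.ext (Prod.ext rfl (funext fun i => ?_))
    exact PC.tt_prod hσ (fun i => hv0 i _) hr0 i

end TOR4
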