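import Pool.Agent.TOR4.GB

/-!
# TOR4/PcT: tuples distinct mod `ℤ[i]` form a path connected space (copy of ASP87/TConf)

For `x, y` in `ConfT B` and `i ≠ j`, `q : ℤ × ℤ` the set of `t : ℂ` with
`(x i - x j) + t ((y i - y j) - (x i - x j)) = pt q` has at most one element (if the coefficient of `t` vanishes then
`x i - x j = pt q`, impossible). The union over `i, j, q` is countable (`Set.countable_iUnion`).
Nonempty: `b i = e i / (n + 1)` for an enumeration `e : B ≃ Fin n` (differences real, of absolute value in `(0,1)`).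
-/

namespace TOR4

open Complex Topology Set ASP87

instance confT_pc (B : Type*) [Finite B] : PathConnectedSpace (ConfT B) := by
  refine ⟨?_, ?_⟩
  · obtain ⟨n, ⟨e⟩⟩ := Finite.exists_equiv_fin B
    refine ⟨⟨fun b => (((((e b : ℕ) : ℝ) / (n + 1) : ℝ)) : ℂ), ?_⟩⟩
    intro i j hij h
    rw [g_zero] at h
    obtain ⟨q, hq⟩ := h
    have hre := congrArg Complex.re hq
    have h1 : (pt q).re = (q.1 : ℝ) := by
      simp [pt]
    rw [h1, sub_re, ofReal_re, ofReal_re] at hre
    have hn : (0 : ℝ) < n + 1 := by positivity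
    have h2 : ((e i : ℕ) : ℝ) - ((e j : ℕ) : ℝ) = (q.1 : ℝ) * (n + 1) := by
      field_simp at hre
      linarith
    have h3 : ((e i : ℕ) : ℤ) - ((e j : ℕ) : ℤ) = q.1 * (n + 1) := by exact_mod_cast h2
    have h4 : ((e i : ℕ) : ℤ) < n := by exact_mod_cast (e i).2
    have h5 : ((e j : ℕ) : ℤ) < n := by exact_mod_cast (e j).2
    have h6 : (0 : ℤ) ≤ ((e i : ℕ) : ℤ) := by positivity
    have h7 : (0 : ℤ) ≤ ((e j : ℕ) : ℤ) := by positivity
    have h8 : q.1 = 0 := by
      rcases lt_trichotomy q.1 0 with h | h | h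
      · nlinarith
      · exact h
      · nlinarith
    rw [h8, zero_mul] at h3
    apply hij
    apply e.injective
    apply Fin.ext
    have h9 : ((e i : ℕ) : ℤ) = ((e j : ℕ) : ℤ) := by linarith
    exact_mod_cast h9
  · rintro ⟨x, hx⟩ ⟨y, hy⟩
    set T : Set ℂ := ⋃ q : {q : B × B // q.1 ≠ q.2} × (ℤ × ℤ),
      {t : ℂ | (x q.1.1.1 - x q.1.1.2) + t * ((y q.1.1.1 - y q.1.1.2) -
        (x q.1.1.1 - x q.1.1.2)) = pt q.2} with hT
    have hTc : T.Countable := by
      have : Countable ({q : B × B // q.1 ≠ q.2} × (ℤ × ℤ)) := inferInstance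
      refine Set.countable_iUnion fun q => Set.Subsingleton.countable ?_
      intro t ht t' ht'
      have h1 : (x q.1.1.1 - x q.1.1.2) + t * ((y q.1.1.1 - y q.1.1.2) -
        (x q.1.1.1 - x q.1.1.2)) = pt q.2 := ht
      have h2 : (x q.1.1.1 - x q.1.1.2) + t' * ((y q.1.1.1 - y q.1.1.2) -
        (x q.1.1.1 - x q.1.1.2)) = pt q.2 := ht'
      have h3 : (t - t') * ((y q.1.1.1 - y q.1.1.2) - (x q.1.1.1 - x q.1.1.2)) = 0 := by
        linear_combination h1 - h2
      rcases mul_eq_zero.1 h3 with h | h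
      · exact sub_eq_zero.1 h
      · exfalso
        apply hx _ _ q.1.2
        rw [g_zero]
        refine ⟨q.2, ?_⟩
        linear_combination h1 - t * h
    have hrk : 1 < Module.rank ℝ ℂ := by
      rw [Complex.rank_real_complex]
      norm_num
    have hpc := hTc.isPathConnected_compl_of_one_lt_rank hrk
    have h0 : (0 : ℂ) ∈ Tᶜ := by
      intro h
      obtain ⟨q, hq⟩ := mem_iUnion.1 h
      have h1 : (x q.1.1.1 - x q.1.1.2) + 0 * ((y q.1.1.1 - y q.1.1.2) -
        (x q.1.1.1 - x q.1.1.2)) = pt q.2 := hq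
      rw [zero_mul, add_zero] at h1
      exact hx _ _ q.1.2 (g_zero.2 ⟨q.2, h1⟩)
    have h1 : (1 : ℂ) ∈ Tᶜ := by
      intro h
      obtain ⟨q, hq⟩ := mem_iUnion.1 h
      have h1 : (x q.1.1.1 - x q.1.1.2) + 1 * ((y q.1.1.1 - y q.1.1.2) -
        (x q.1.1.1 - x q.1.1.2)) = pt q.2 := hq
      refine hy _ _ q.1.2 (g_zero.2 ⟨q.2, ?_⟩)
      linear_combination h1
    obtain ⟨γ, hγ⟩ := hpc.joinedIn 0 h0 1 h1
    refine ⟨⟨⟨fun s => ⟨fun b => x b + γ s * (y b - x b), ?_⟩, ?_⟩, ?_, ?_⟩⟩
    · intro b b' hne h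
      rw [g_zero] at h
      obtain ⟨q, hq⟩ := h
      apply hγ s
      rw [hT, mem_iUnion]
      refine ⟨⟨⟨(b, b'), hne⟩, q⟩, ?_⟩
      show (x b - x b') + γ s * ((y b - y b') - (x b - x b')) = pt q
      linear_combination hq
    · refine Continuous.subtype_mk (continuous_pi fun b => ?_) _
      exact continuous_const.add (γ.continuous.mul continuous_const)
    · apply Subtype.ext
      funext b
      simp
    · apply Subtype.ext
      funext b
      simp

end TOR4
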