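import Pool.Agent.TOR4.GB

/-!
# TOR4/SmallT: small periodic maps that move finitely many points (copy of ASP87/TSmall)

`δ > 0` with `δ ≤ ‖g (b0 i - b0 j)‖`, `i ≠ j`. `tgB δ c z = max (1 - ‖g (z - c)‖ / δ) 0`: values in `[0,1]`, 1 at
`z = c`, 0 at `b0 j` for `c = b0 i`, `(π/δ)`-Lipschitz (`g_lip`), periodic (`g_norm_add`).
`ε = δ / (16 (|B| + 1))` (so `|B| (π/δ) ε ≤ 1/4`), `tgC`, `G b z = Σ i, tgB δ (b0 i) z * tgC ε (b i - b0 i)`,
`H b z = z + G b z` as in ASP87/TSmall. `G b` is periodic and `1/4`-Lipschitz.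
-/

namespace TOR4

open Complex Topology Set ASP87

private noncomputable def tgB (δ : ℝ) (c z : ℂ) : ℝ := max (1 - ‖g (z - c)‖ / δ) 0

private theorem tgB_lip {δ : ℝ} (hδ : 0 < δ) (c z z' : ℂ) :
    |tgB δ c z - tgB δ c z'| ≤ Real.pi * ‖z - z'‖ / δ := by
  unfold tgB
  refine (abs_max_sub_max_le_abs _ _ _).trans ?_
  have h1 : 1 - ‖g (z - c)‖ / δ - (1 - ‖g (z' - c)‖ / δ) = (‖g (z' - c)‖ - ‖g (z - c)‖) / δ := by
    ring
  rw [h1, abs_div, abs_of_pos hδ]
  apply div_le_div_of_nonneg_right _ hδ.le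
  have h2 := abs_norm_sub_norm_le (g (z' - c)) (g (z - c))
  have h3 := g_lip (z' - c) (z - c)
  rw [sub_sub_sub_cancel_right, norm_sub_rev z' z] at h3
  exact h2.trans h3

private theorem tgB_per (δ : ℝ) (c z : ℂ) (q : ℤ × ℤ) : tgB δ c (z + pt q) = tgB δ c z := by
  unfold tgB
  rw [show z + pt q - c = z - c + pt q by ring, g_norm_add]

private theorem tgB_nonneg (δ : ℝ) (c z : ℂ) : 0 ≤ tgB δ c z := le_max_right _ _

private theorem tgB_le_one {δ : ℝ} (hδ : 0 < δ) (c z : ℂ) : tgB δ c z ≤ 1 := by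
  unfold tgB
  have h : 0 ≤ ‖g (z - c)‖ / δ := by positivity
  exact max_le (by linarith) zero_le_one

private theorem g_zero_zero : g 0 = 0 := g_zero.2 ⟨(0, 0), by simp [pt]⟩

private theorem tgB_self (δ : ℝ) (c : ℂ) : tgB δ c c = 1 := by
  unfold tgB
  rw [sub_self, g_zero_zero]
  simp

private theorem tgB_far {δ : ℝ} (hδ : 0 < δ) {c z : ℂ} (h : δ ≤ ‖g (z - c)‖) : tgB δ c z = 0 := by
  unfold tgB
  apply max_eq_right
  have : 1 ≤ ‖g (z - c)‖ / δ := by rwa [le_div_iff₀ hδ, one_mul]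
  linarith

private theorem tgB_cont {δ : ℝ} (c : ℂ) : Continuous (tgB δ c) := by
  unfold tgB
  have h : Continuous fun z : ℂ => g (z - c) := g_cont.comp (continuous_id.sub continuous_const)
  exact (continuous_const.sub (h.norm.div_const _)).max continuous_const

private noncomputable def tgC (ε : ℝ) (v : ℂ) : ℂ := ((ε / max ε ‖v‖ : ℝ) : ℂ) * v

private theorem tgC_norm {ε : ℝ} (hε : 0 < ε) (v : ℂ) : ‖tgC ε v‖ ≤ ε := by
  unfold tgC
  have hm : 0 < max ε ‖v‖ := lt_of_lt_of_le hε (le_max_left _ _)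
  rw [norm_mul, Complex.norm_real, Real.norm_of_nonneg (by positivity), div_mul_eq_mul_div,
    div_le_iff₀ hm]
  exact mul_le_mul_of_nonneg_left (le_max_right _ _) hε.le

private theorem tgC_eq {ε : ℝ} (hε : 0 < ε) {v : ℂ} (hv : ‖v‖ ≤ ε) : tgC ε v = v := by
  unfold tgC
  rw [max_eq_left hv, div_self hε.ne', Complex.ofReal_one, one_mul]

private theorem tgC_cont {ε : ℝ} (hε : 0 < ε) : Continuous (tgC ε) := by
  unfold tgC
  have h1 : Continuous fun v : ℂ => ε / max ε ‖v‖ :=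
    continuous_const.div (continuous_const.max continuous_norm) fun v =>
      (lt_of_lt_of_le hε (le_max_left _ _)).ne'
  exact (Complex.continuous_ofReal.comp h1).mul continuous_id

private noncomputable def tgG {B : Type*} [Fintype B] (δ ε : ℝ) (b0 b : B → ℂ) (z : ℂ) : ℂ :=
  ∑ i, ((tgB δ (b0 i) z : ℝ) : ℂ) * tgC ε (b i - b0 i)

private theorem tgG_cont {B : Type*} [Fintype B] {δ ε : ℝ} (hε : 0 < ε) (b0 : B → ℂ) :
    Continuous fun q : (B → ℂ) × ℂ => tgG δ ε b0 q.1 q.2 := by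
  unfold tgG
  refine continuous_finsetSum _ fun i _ => ?_
  refine (Complex.continuous_ofReal.comp ((tgB_cont _).comp continuous_snd)).mul ?_
  exact (tgC_cont hε).comp (((continuous_apply i).comp continuous_fst).sub continuous_const)

private theorem tgG_per {B : Type*} [Fintype B] (δ ε : ℝ) (b0 b : B → ℂ) (z : ℂ) (q : ℤ × ℤ) :
    tgG δ ε b0 b (z + pt q) = tgG δ ε b0 b z := by
  unfold tgG
  exact Finset.sum_congr rfl fun i _ => by rw [tgB_per]

private theorem tgG_lip {B : Type*} [Fintype B] {δ ε : ℝ} (hδ : 0 < δ) (hε : 0 < ε)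
    (hεδ : 16 * (Fintype.card B : ℝ) * ε ≤ δ) (b0 b : B → ℂ) (z z' : ℂ) :
    ‖tgG δ ε b0 b z - tgG δ ε b0 b z'‖ ≤ 1 / 4 * ‖z - z'‖ := by
  unfold tgG
  rw [← Finset.sum_sub_distrib]
  refine (norm_sum_le _ _).trans ?_
  have hpi := Real.pi_pos
  calc ∑ i, ‖((tgB δ (b0 i) z : ℝ) : ℂ) * tgC ε (b i - b0 i) -
        ((tgB δ (b0 i) z' : ℝ) : ℂ) * tgC ε (b i - b0 i)‖
      ≤ ∑ _i : B, Real.pi * ‖z - z'‖ / δ * ε := by
        refine Finset.sum_le_sum fun i _ => ?_
        rw [← sub_mul, norm_mul, ← Complex.ofReal_sub, Complex.norm_real, Real.norm_eq_abs]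
        exact mul_le_mul (tgB_lip hδ _ _ _) (tgC_norm hε _) (norm_nonneg _) (by positivity)
    _ = Real.pi * ((Fintype.card B : ℝ) * ε) / δ * ‖z - z'‖ := by
        rw [Finset.sum_const, nsmul_eq_mul, Finset.card_univ]
        ring
    _ ≤ 1 / 4 * ‖z - z'‖ := by
        refine mul_le_mul_of_nonneg_right ?_ (norm_nonneg _)
        rw [div_le_iff₀ hδ]
        have h4 := Real.pi_le_four
        have h0 : 0 ≤ (Fintype.card B : ℝ) * ε := by positivity
        nlinarith

private theorem tgG_diff {B : Type*} [Fintype B] {δ ε : ℝ} (hδ : 0 < δ) (b0 b b' : B → ℂ)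
    (z : ℂ) : ‖tgG δ ε b0 b' z - tgG δ ε b0 b z‖ ≤
      ∑ i, ‖tgC ε (b' i - b0 i) - tgC ε (b i - b0 i)‖ := by
  unfold tgG
  rw [← Finset.sum_sub_distrib]
  refine (norm_sum_le _ _).trans (Finset.sum_le_sum fun i _ => ?_)
  rw [← mul_sub, norm_mul, Complex.norm_real, Real.norm_of_nonneg (tgB_nonneg _ _ _)]
  calc _ ≤ 1 * ‖tgC ε (b' i - b0 i) - tgC ε (b i - b0 i)‖ :=
        mul_le_mul_of_nonneg_right (tgB_le_one hδ _ _) (norm_nonneg _)
    _ = _ := one_mul _

private theorem tgG_pt {B : Type*} [Fintype B] {δ ε : ℝ} (hδ : 0 < δ) (hε : 0 < ε)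
    {b0 b : B → ℂ} (hb0 : ∀ i j, i ≠ j → δ ≤ ‖g (b0 i - b0 j)‖) (hb : ∀ i, ‖b i - b0 i‖ ≤ ε)
    (i : B) : tgG δ ε b0 b (b0 i) = b i - b0 i := by
  unfold tgG
  rw [Finset.sum_eq_single i]
  · rw [tgB_self, Complex.ofReal_one, one_mul, tgC_eq hε (hb i)]
  · intro j _ hj
    rw [tgB_far hδ (hb0 i j hj.symm), Complex.ofReal_zero, zero_mul]
  · intro h
    exact absurd (Finset.mem_univ i) h

private theorem tg_re {v : ℂ} (hv : ‖v‖ ≤ 1 / 2) : 0 < (1 + v).re := by
  have h := (abs_le.1 ((Complex.abs_re_le_norm v).trans hv)).1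
  rw [Complex.add_re, Complex.one_re]
  linarith

private theorem tg_delta {B : Type*} [Finite B] {b0 : B → ℂ}
    (hb0 : ∀ i j, i ≠ j → g (b0 i - b0 j) ≠ 0) :
    ∃ δ : ℝ, 0 < δ ∧ ∀ i j, i ≠ j → δ ≤ ‖g (b0 i - b0 j)‖ := by
  classical
  cases nonempty_fintype B
  set P : Finset (B × B) := Finset.univ.filter fun p => p.1 ≠ p.2 with hP
  rcases P.eq_empty_or_nonempty with h | h
  · refine ⟨1, one_pos, fun i j hij => ?_⟩
    have : (i, j) ∈ P := by
      rw [hP, Finset.mem_filter]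
      exact ⟨Finset.mem_univ _, hij⟩
    rw [h] at this
    exact absurd this (Finset.notMem_empty _)
  · obtain ⟨p, hp, hmin⟩ := P.exists_min_image (fun p => ‖g (b0 p.1 - b0 p.2)‖) h
    refine ⟨‖g (b0 p.1 - b0 p.2)‖, ?_, fun i j hij => ?_⟩
    · rw [norm_pos_iff]
      rw [hP, Finset.mem_filter] at hp
      exact hb0 _ _ hp.2
    · exact hmin (i, j) (by
        rw [hP, Finset.mem_filter]
        exact ⟨Finset.mem_univ _, hij⟩)

theorem exists_smallT {B : Type*} [Finite B] {b0 : B → ℂ}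
    (hb0 : ∀ i j, i ≠ j → g (b0 i - b0 j) ≠ 0) :
    ∃ (ε : ℝ) (H K : (B → ℂ) → ℂ → ℂ), 0 < ε ∧ MFT H ∧ MFT K ∧
      (∀ b z, K b (H b z) = z) ∧ (∀ b z, H b (K b z) = z) ∧
      ∀ b, (∀ i, ‖b i - b0 i‖ ≤ ε) → ∀ i, H b (b0 i) = b i := by
  cases nonempty_fintype B
  obtain ⟨δ, hδ, hδb⟩ := tg_delta hb0
  set ε : ℝ := δ / (16 * ((Fintype.card B : ℝ) + 1)) with hε
  have hε0 : 0 < ε := by positivity
  have hεδ : 16 * (Fintype.card B : ℝ) * ε ≤ δ := by
    rw [hε, ← mul_div_assoc, div_le_iff₀ (by positivity)]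
    nlinarith
  set G : (B → ℂ) → ℂ → ℂ := tgG δ ε b0 with hG
  have hGl : ∀ b z z', ‖G b z - G b z'‖ ≤ 1 / 4 * ‖z - z'‖ := fun b z z' =>
    tgG_lip hδ hε0 hεδ b0 b z z'
  have hGp : ∀ b z q, G b (z + pt q) = G b z := fun b z q => tgG_per δ ε b0 b z q
  have hcon : ∀ (b : B → ℂ) (ζ : ℂ), ContractingWith (1 / 2) fun z => ζ - G b z := by
    intro b ζ
    refine ⟨?_, LipschitzWith.of_dist_le_mul fun z z' => ?_⟩
    · rw [← NNReal.coe_lt_coe]
      norm_num
    · rw [dist_eq_norm, dist_eq_norm, sub_sub_sub_cancel_left, norm_sub_rev]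
      have := hGl b z z'
      have h0 := norm_nonneg (z - z')
      push_cast
      linarith
  set H : (B → ℂ) → ℂ → ℂ := fun b z => z + G b z with hH
  set K : (B → ℂ) → ℂ → ℂ := fun b ζ => ContractingWith.fixedPoint _ (hcon b ζ) with hK
  have hKf : ∀ b ζ, ζ - G b (K b ζ) = K b ζ := fun b ζ => (hcon b ζ).fixedPoint_isFixedPt
  have hHK : ∀ b ζ, H b (K b ζ) = ζ := by
    intro b ζ
    have h := hKf b ζ
    show K b ζ + G b (K b ζ) = ζ
    linear_combination -h
  have hKH : ∀ b z, K b (H b z) = z := by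
    intro b z
    refine ((hcon b (H b z)).fixedPoint_unique (x := z) ?_).symm
    show z + G b z - G b z = z
    ring
  have hHper : ∀ b z z', g (z - z') = 0 → g (H b z - H b z') = 0 := by
    intro b z z' h
    obtain ⟨q, hq⟩ := g_zero.1 h
    have hz : z = z' + pt q := by rw [← hq]; ring
    apply g_zero.2
    refine ⟨q, ?_⟩
    show z + G b z - (z' + G b z') = pt q
    rw [hz, hGp]
    ring
  have hHmono : ∀ b z z', g (z - z') ≠ 0 → 0 < (g (H b z - H b z') / g (z - z')).re := by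
    intro b z z' hne
    obtain ⟨q, hq⟩ := g_lower (z - z')
    have h1 : ‖G b z - G b z'‖ ≤ 1 / 8 * ‖g (z - z')‖ := by
      have h2 := hGl b z (z' + pt q)
      rw [hGp] at h2
      rw [show z - (z' + pt q) = z - z' - pt q by ring] at h2
      linarith
    have h3 : ‖g (H b z - H b z') - g (z - z')‖ ≤ 1 / 2 * ‖g (z - z')‖ := by
      have h4 := g_lip (H b z - H b z') (z - z')
      have h5 : H b z - H b z' - (z - z') = G b z - G b z' := by
        rw [hH]
        ring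
      rw [h5] at h4
      have h6 := Real.pi_le_four
      have h7 := Real.pi_pos
      have h8 := norm_nonneg (G b z - G b z')
      nlinarith
    have h9 : g (H b z - H b z') / g (z - z') =
        1 + (g (H b z - H b z') - g (z - z')) / g (z - z') := by
      field_simp
      ring
    rw [h9]
    apply tg_re
    rw [norm_div, div_le_iff₀ (norm_pos_iff.2 hne)]
    exact h3
  have hHl : ∀ b z z', ‖z - z'‖ ≤ 2 * ‖H b z - H b z'‖ := by
    intro b z z'
    have h1 : z - z' = (H b z - H b z') - (G b z - G b z') := by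
      rw [hH]
      simp only
      ring
    have h2 := norm_sub_le (H b z - H b z') (G b z - G b z')
    rw [← h1] at h2
    have := hGl b z z'
    have h3 := norm_nonneg (z - z')
    linarith
  refine ⟨ε, H, K, hε0, ⟨?_, hHper, hHmono⟩, ⟨?_, ?_, ?_⟩, hKH, hHK, ?_⟩
  · exact continuous_snd.add (tgG_cont hε0 b0)
  · rw [continuous_iff_continuousAt]
    rintro ⟨b, ζ⟩
    have hb : ∀ q : (B → ℂ) × ℂ, ‖K q.1 q.2 - K b ζ‖ ≤ 2 * ‖q.2 - ζ‖ +
        2 * ∑ i, ‖tgC ε (q.1 i - b0 i) - tgC ε (b i - b0 i)‖ := by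
      intro q
      have h1 := hHl b (K q.1 q.2) (K b ζ)
      rw [hHK] at h1
      have h2 : H b (K q.1 q.2) - ζ = (q.2 - ζ) - (G q.1 (K q.1 q.2) - G b (K q.1 q.2)) := by
        have h3 := hHK q.1 q.2
        rw [hH] at h3 ⊢
        simp only at h3 ⊢
        linear_combination h3
      have h3 := norm_sub_le (q.2 - ζ) (G q.1 (K q.1 q.2) - G b (K q.1 q.2))
      rw [← h2] at h3
      have h4 := tgG_diff (ε := ε) hδ b0 b q.1 (K q.1 q.2)
      rw [← hG] at h4
      linarith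
    have hlim : Filter.Tendsto (fun q : (B → ℂ) × ℂ => 2 * ‖q.2 - ζ‖ +
        2 * ∑ i, ‖tgC ε (q.1 i - b0 i) - tgC ε (b i - b0 i)‖) (𝓝 (b, ζ)) (𝓝 0) := by
      have hc : Continuous fun q : (B → ℂ) × ℂ => 2 * ‖q.2 - ζ‖ +
          2 * ∑ i, ‖tgC ε (q.1 i - b0 i) - tgC ε (b i - b0 i)‖ := by
        refine (continuous_const.mul (continuous_snd.sub continuous_const).norm).add
          (continuous_const.mul (continuous_finsetSum _ fun i _ => ?_))
        exact (((tgC_cont hε0).comp (((continuous_apply i).comp continuous_fst).sub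
          continuous_const)).sub continuous_const).norm
      have h := hc.tendsto (b, ζ)
      simpa using h
    rw [ContinuousAt, tendsto_iff_norm_sub_tendsto_zero]
    exact squeeze_zero (fun _ => norm_nonneg _) hb hlim
  · intro b u u' h
    obtain ⟨q, hq⟩ := g_zero.1 h
    have hu : u = u' + pt q := by rw [← hq]; ring
    have h1 : H b (K b u' + pt q) = u := by
      have h2 : K b u' + G b (K b u') = u' := hHK b u'
      show K b u' + pt q + G b (K b u' + pt q) = u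
      rw [hGp, hu]
      linear_combination h2
    have h3 : K b u = K b u' + pt q := by
      rw [← h1, hKH]
    rw [h3]
    exact g_zero.2 ⟨q, by ring⟩
  · intro b u u' hne
    have hz : g (K b u - K b u') ≠ 0 := by
      intro h
      apply hne
      have h1 := hHper b _ _ h
      rwa [hHK, hHK] at h1
    have h1 := hHmono b _ _ hz
    rw [hHK, hHK] at h1
    have h2 : g (K b u - K b u') / g (u - u') = (g (u - u') / g (K b u - K b u'))⁻¹ := by
      rw [inv_div]
    rw [h2, Complex.inv_re]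
    have h3 : g (u - u') / g (K b u - K b u') ≠ 0 := div_ne_zero hne hz
    exact div_pos h1 (Complex.normSq_pos.2 h3)
  · intro b hb i
    show b0 i + G b (b0 i) = b i
    rw [hG, tgG_pt hδ hε0 hδb hb i]
    ring

end TOR4
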