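import Pool.Agent.ASP87.Root
import Pool.Agent.ASP87.Defs
import Pool.Agent.ASP87.TLoc

/-!
# TOR4/Defs: systems of points of the torus `ℂ/ℤ[i]` with roots of `g` of differences (definitions)

`g z = sin(π Re z) + i sin(π Im z)`: zero set `ℤ[i]`. `SysT A R`: points indexed by `A`, relations indexed by `R`;
relation `r` asks for an `m`-th root of `g (z (src r) - z (tgt r))`; `ne a b` asks for `z a - z b ∉ ℤ[i]`.
`GT m S` = the space of all solutions (in `ℂ`, not in the torus). `ConfT B` = tuples of points distinct mod `ℤ[i]`.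
`forgetT` = restriction to some of the points; `trT m S H` = effect of a map `H` of the plane (with the principal
root of the ratio); `MFT H`: a continuous family of maps compatible with `ℤ[i]` and with ratios in the right half
plane.
-/

namespace TOR4

open Complex Topology Set ASP87

/-- the function with zero set `ℤ[i]` -/
noncomputable def g (z : ℂ) : ℂ :=
  ((Real.sin (Real.pi * z.re) : ℝ) : ℂ) + ((Real.sin (Real.pi * z.im) : ℝ) : ℂ) * I

/-- lattice points -/
noncomputable def pt (q : ℤ × ℤ) : ℂ := (q.1 : ℂ) + (q.2 : ℂ) * I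

structure SysT (A R : Type*) where
  src : R → A
  tgt : R → A
  ne : A → A → Prop

def GT {A R : Type*} (m : ℕ) (S : SysT A R) : Set ((A → ℂ) × (R → ℂ)) :=
  {y | (∀ r, y.2 r ^ m = g (y.1 (S.src r) - y.1 (S.tgt r))) ∧
    ∀ a b, S.ne a b → g (y.1 a - y.1 b) ≠ 0}

abbrev ConfT (B : Type*) : Type _ := {b : B → ℂ // ∀ i j, i ≠ j → g (b i - b j) ≠ 0}

/-- restriction to the points `j b` -/
def forgetT {A R B : Type*} (m : ℕ) (S : SysT A R) (j : B → A)
    (hj : ∀ b b', b ≠ b' → S.ne (j b) (j b')) (y : GT m S) : ConfT B :=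
  ⟨fun b => y.1.1 (j b), fun b b' h => y.2.2 _ _ (hj b b' h)⟩

/-- effect of a map of the plane -/
noncomputable def trT {A R : Type*} (m : ℕ) (S : SysT A R) (H : ℂ → ℂ) (y : (A → ℂ) × (R → ℂ)) :
    (A → ℂ) × (R → ℂ) :=
  (fun a => H (y.1 a), fun r => y.2 r * exp (log
    (g (H (y.1 (S.src r)) - H (y.1 (S.tgt r))) / g (y.1 (S.src r) - y.1 (S.tgt r))) / m))

/-- continuous families of maps compatible with the lattice, ratios in the right half plane -/
structure MFT {N : Type*} [TopologicalSpace N] (H : N → ℂ → ℂ) : Prop where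
  cont : Continuous (fun q : N × ℂ => H q.1 q.2)
  per : ∀ n z z', g (z - z') = 0 → g (H n z - H n z') = 0
  mono : ∀ n z z', g (z - z') ≠ 0 → 0 < (g (H n z - H n z') / g (z - z')).re

theorem forgetT_continuous {A R B : Type*} (m : ℕ) (S : SysT A R) (j : B → A)
    (hj : ∀ b b', b ≠ b' → S.ne (j b) (j b')) : Continuous (forgetT m S j hj) := by
  refine Continuous.subtype_mk (continuous_pi fun b => ?_) _
  exact (continuous_apply (j b)).comp (continuous_fst.comp continuous_subtype_val)

/-- the surface of the positions `c` of one point with roots of `g (z i - c)`, punctures `d a` -/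
def SF {ι κ : Type*} (m : ℕ) (z : ι → ℂ) (d : κ → ℂ) : Set (ℂ × (ι → ℂ)) :=
  {y | (∀ i, y.2 i ^ m = g (z i - y.1)) ∧ ∀ a, g (y.1 - d a) ≠ 0}

end TOR4
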