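import Pool.Agent.TOR4.GB

/-!
# TOR4/Fact: finitely many zeros of `g` split off

`cj q w = w` if `q.1 + q.2` is even, `conj w` otherwise. Near `pt q`, `u = pt q + ξ + η i`:
`g u = (-1)^q.1 (sin (π ξ) + (-1)^(q.1+q.2) sin (π η) i)`, so `g u / cj q (u - pt q) → (-1)^q.1 π`
(`sin (π ξ) = π ξ sinc (π ξ)`, `Real.sinc` continuous: with `w = ξ ± η i`,
`(ξ A ± η B i)/w = A ± η (B - A) i / w`, `|η / w| ≤ 1`; or by differentiability of `sin`).
`h u = g u / ∏_{q ∈ Q} cj q (pt q - u)` for `u ∉ pt '' Q`; for `u = pt q`, `q ∈ Q`: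
`h u = - (-1)^q.1 π / ∏_{q' ∈ Q \ q} cj q' (pt q' - pt q)`. Continuous at `pt q` by the limit above
(`continuousAt_of_tendsto..` or: near `pt q`, `h u = r u / ∏_{q' ≠ q} cj q' (pt q' - u)` with
`r u = g u / cj q (pt q - u)`, `r (pt q) = -(-1)^q.1 π`), elsewhere it is a quotient of continuous functions locally.
-/

namespace TOR4

open Complex Topology Set ASP87

/-- identity or conjugation according to the parity of the lattice point -/
noncomputable def cj (q : ℤ × ℤ) (w : ℂ) : ℂ := if Even (q.1 + q.2) then w else (starRingEnd ℂ) w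

theorem cj_cont (q : ℤ × ℤ) : Continuous (cj q) := by
  unfold cj
  split_ifs
  · exact continuous_id
  · exact Complex.continuous_conj

theorem cj_cj (q : ℤ × ℤ) (w : ℂ) : cj q (cj q w) = w := by
  unfold cj
  split_ifs <;> simp

theorem cj_pow (q : ℤ × ℤ) (w : ℂ) (m : ℕ) : cj q (w ^ m) = cj q w ^ m := by
  unfold cj
  split_ifs <;> simp

theorem cj_eq_zero {q : ℤ × ℤ} {w : ℂ} : cj q w = 0 ↔ w = 0 := by
  unfold cj
  split_ifs <;> simp

theorem Fact_norm_cj (q : ℤ × ℤ) (w : ℂ) : ‖cj q w‖ = ‖w‖ := by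
  unfold cj
  split_ifs
  · rfl
  · exact Complex.norm_conj w

theorem Fact_sin (x : ℝ) (a : ℤ) : Real.sin (Real.pi * x) =
    (-1) ^ a * (Real.pi * (x - a) * Real.sinc (Real.pi * (x - a))) := by
  have h1 : Real.pi * x = Real.pi * (x - a) + a * Real.pi := by ring
  rw [h1, Real.sin_add_int_mul_pi]
  congr 1
  by_cases h : Real.pi * (x - a) = 0
  · rw [h, Real.sin_zero, zero_mul]
  · rw [Real.sinc_of_ne_zero h, mul_div_cancel₀ _ h]

/-- the value at the point itself -/
noncomputable def Fact_c (q : ℤ × ℤ) : ℝ := -((-1) ^ q.1 * Real.pi)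

/-- the quotient of `g` and one factor -/
noncomputable def Fact_r (q : ℤ × ℤ) (u : ℂ) : ℂ :=
  open Classical in if u = pt q then (Fact_c q : ℂ) else g u / cj q (pt q - u)

theorem Fact_c_ne (q : ℤ × ℤ) : (Fact_c q : ℂ) ≠ 0 := by
  rw [Complex.ofReal_ne_zero]
  unfold Fact_c
  rw [neg_ne_zero]
  exact mul_ne_zero (zpow_ne_zero _ (by norm_num)) Real.pi_ne_zero

theorem Fact_g (q : ℤ × ℤ) (u : ℂ) : g u = Fact_r q u * cj q (pt q - u) := by
  unfold Fact_r
  by_cases h : u = pt q
  · rw [if_pos h, h, sub_self, cj_eq_zero.2 rfl, mul_zero]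
    exact g_zero.2 ⟨q, rfl⟩
  · rw [if_neg h, div_mul_cancel₀]
    intro h0
    exact h (sub_eq_zero.1 (cj_eq_zero.1 h0)).symm

theorem Fact_bound (q : ℤ × ℤ) (u : ℂ) : ‖Fact_r q u - Fact_c q‖ ≤
    Real.pi * (|Real.sinc (Real.pi * (u.re - q.1)) - 1| +
      |Real.sinc (Real.pi * (u.im - q.2)) - 1|) := by
  have hpi := Real.pi_pos
  by_cases h : u = pt q
  · unfold Fact_r
    rw [if_pos h, sub_self, norm_zero]
    positivity
  · have hw : cj q (pt q - u) ≠ 0 := fun h0 => h (sub_eq_zero.1 (cj_eq_zero.1 h0)).symm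
    have hwn : 0 < ‖pt q - u‖ := by
      rw [← Fact_norm_cj q]
      exact norm_pos_iff.2 hw
    have e1 : Fact_r q u - Fact_c q = (g u - Fact_c q * cj q (pt q - u)) / cj q (pt q - u) := by
      unfold Fact_r
      rw [if_neg h]
      field_simp
    rw [e1, norm_div, Fact_norm_cj, div_le_iff₀ hwn]
    generalize hA : Real.sinc (Real.pi * (u.re - q.1)) = A
    generalize hB : Real.sinc (Real.pi * (u.im - q.2)) = B
    have s1 := Fact_sin u.re q.1
    have s2 := Fact_sin u.im q.2
    rw [hA] at s1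
    rw [hB] at s2
    have hs : |((-1 : ℝ) ^ q.1)| = 1 := by
      rw [abs_zpow, abs_neg, abs_one, one_zpow]
    have ht : |((-1 : ℝ) ^ q.2)| = 1 := by
      rw [abs_zpow, abs_neg, abs_one, one_zpow]
    have hre : (g u - Fact_c q * cj q (pt q - u)).re =
        (-1) ^ q.1 * (Real.pi * (u.re - q.1) * (A - 1)) := by
      have e2 : (cj q (pt q - u)).re = q.1 - u.re := by
        unfold cj
        split_ifs
        · rw [sub_re, pt_re]
        · rw [conj_re, sub_re, pt_re]
      rw [sub_re, re_ofReal_mul, e2, g_re, s1]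
      unfold Fact_c
      ring
    have him : (g u - Fact_c q * cj q (pt q - u)).im =
        (-1) ^ q.2 * (Real.pi * (u.im - q.2) * (B - 1)) := by
      have e2 : (-1 : ℝ) ^ q.1 * (cj q (pt q - u)).im = (-1 : ℝ) ^ q.2 * (q.2 - u.im) := by
        unfold cj
        by_cases hev : Even (q.1 + q.2)
        · rw [if_pos hev, sub_im, pt_im]
          congr 1
          rcases Int.even_or_odd q.1 with h1 | h1
          · have h2 : Even q.2 := (Int.even_add.1 hev).1 h1
            rw [h1.neg_one_zpow, h2.neg_one_zpow]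
          · have h2 : Odd q.2 := by
              rw [← Int.not_even_iff_odd] at h1 ⊢
              exact fun h3 => h1 ((Int.even_add.1 hev).2 h3)
            rw [h1.neg_one_zpow, h2.neg_one_zpow]
        · rw [if_neg hev, conj_im, sub_im, pt_im]
          rcases Int.even_or_odd q.1 with h1 | h1
          · have h2 : Odd q.2 := by
              rw [← Int.not_even_iff_odd]
              exact fun h3 => hev (h1.add h3)
            rw [h1.neg_one_zpow, h2.neg_one_zpow]
            ring
          · have h2 : Even q.2 := by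
              by_contra h3
              rw [Int.not_even_iff_odd] at h3
              exact hev (h1.add_odd h3)
            rw [h1.neg_one_zpow, h2.neg_one_zpow]
            ring
      rw [sub_im, im_ofReal_mul, g_im, s2]
      have e3 : Fact_c q * (cj q (pt q - u)).im =
          -(Real.pi * ((-1 : ℝ) ^ q.1 * (cj q (pt q - u)).im)) := by
        unfold Fact_c
        ring
      rw [e3, e2]
      ring
    have h3 := Complex.norm_le_abs_re_add_abs_im (g u - Fact_c q * cj q (pt q - u))
    have a1 : |(-1 : ℝ) ^ q.1 * (Real.pi * (u.re - q.1) * (A - 1))| =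
        Real.pi * |u.re - q.1| * |A - 1| := by
      rw [abs_mul, hs, one_mul, abs_mul, abs_mul, abs_of_pos hpi]
    have a2 : |(-1 : ℝ) ^ q.2 * (Real.pi * (u.im - q.2) * (B - 1))| =
        Real.pi * |u.im - q.2| * |B - 1| := by
      rw [abs_mul, ht, one_mul, abs_mul, abs_mul, abs_of_pos hpi]
    rw [hre, him, a1, a2] at h3
    have h4 : |u.re - q.1| ≤ ‖pt q - u‖ := by
      have := Complex.abs_re_le_norm (pt q - u)
      rw [sub_re, pt_re, abs_sub_comm] at this
      exact this
    have h5 : |u.im - q.2| ≤ ‖pt q - u‖ := by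
      have := Complex.abs_im_le_norm (pt q - u)
      rw [sub_im, pt_im, abs_sub_comm] at this
      exact this
    refine h3.trans ?_
    have h6 : Real.pi * |u.re - q.1| * |A - 1| ≤ Real.pi * ‖pt q - u‖ * |A - 1| := by gcongr
    have h7 : Real.pi * |u.im - q.2| * |B - 1| ≤ Real.pi * ‖pt q - u‖ * |B - 1| := by gcongr
    calc _ ≤ Real.pi * ‖pt q - u‖ * |A - 1| + Real.pi * ‖pt q - u‖ * |B - 1| := add_le_add h6 h7
      _ = _ := by ring

theorem Fact_r_at (q : ℤ × ℤ) : ContinuousAt (Fact_r q) (pt q) := by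
  have hval : Fact_r q (pt q) = Fact_c q := by
    unfold Fact_r
    rw [if_pos rfl]
  unfold ContinuousAt
  rw [hval, tendsto_iff_norm_sub_tendsto_zero]
  have hlim : Filter.Tendsto (fun u : ℂ => Real.pi * (|Real.sinc (Real.pi * (u.re - q.1)) - 1| +
      |Real.sinc (Real.pi * (u.im - q.2)) - 1|)) (𝓝 (pt q)) (𝓝 0) := by
    have hc : Continuous (fun u : ℂ => Real.pi * (|Real.sinc (Real.pi * (u.re - q.1)) - 1| +
      |Real.sinc (Real.pi * (u.im - q.2)) - 1|)) := by
      have h1 := Real.continuous_sinc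
      fun_prop
    have h2 := hc.tendsto (pt q)
    rw [pt_re, pt_im, sub_self, sub_self, mul_zero, Real.sinc_zero, sub_self, abs_zero, add_zero,
      mul_zero] at h2
    exact h2
  exact squeeze_zero (fun u => norm_nonneg _) (fun u => Fact_bound q u) hlim

theorem exists_fact (Q : Finset (ℤ × ℤ)) :
    ∃ h : ℂ → ℂ, Continuous h ∧ (∀ u, g u = h u * ∏ q ∈ Q, cj q (pt q - u)) ∧
      ∀ u, (∀ q, q ∉ Q → u ≠ pt q) → h u ≠ 0 := by
  classical
  induction Q using Finset.induction_on with
  | empty =>
    refine ⟨g, g_cont, fun u => by simp, fun u hu h0 => ?_⟩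
    obtain ⟨q, hq⟩ := g_zero.1 h0
    exact hu q (Finset.notMem_empty q) hq
  | insert q₀ Q hq₀ ih =>
    obtain ⟨h, hc, hg, hne⟩ := ih
    have hinj : ∀ q q' : ℤ × ℤ, pt q = pt q' → q = q' := by
      intro q q' hqq
      have h1 := congrArg Complex.re hqq
      have h2 := congrArg Complex.im hqq
      rw [pt_re, pt_re] at h1
      rw [pt_im, pt_im] at h2
      exact Prod.ext (by exact_mod_cast h1) (by exact_mod_cast h2)
    have hP : ∀ u, (∀ q ∈ Q, u ≠ pt q) → ∏ q ∈ Q, cj q (pt q - u) ≠ 0 := by
      intro u hu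
      rw [Finset.prod_ne_zero_iff]
      intro q hq h0
      exact hu q hq (sub_eq_zero.1 (cj_eq_zero.1 h0)).symm
    have hPc : Continuous fun u : ℂ => ∏ q ∈ Q, cj q (pt q - u) := by
      refine continuous_finsetProd _ fun q _ => ?_
      exact (cj_cont q).comp (continuous_const.sub continuous_id)
    have hP0 : ∏ q ∈ Q, cj q (pt q - pt q₀) ≠ 0 := by
      refine hP _ fun q hq h0 => hq₀ ?_
      rw [hinj q₀ q h0]
      exact hq
    have hh0 : h (pt q₀) = 0 := by
      have h1 := hg (pt q₀)
      rw [g_zero.2 ⟨q₀, rfl⟩] at h1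
      rcases mul_eq_zero.1 h1.symm with h2 | h2
      · exact h2
      · exact absurd h2 hP0
    let k : ℂ → ℂ := fun u => if u = pt q₀ then (Fact_c q₀ : ℂ) / ∏ q ∈ Q, cj q (pt q - pt q₀)
      else h u / cj q₀ (pt q₀ - u)
    have hmul : ∀ u, h u = k u * cj q₀ (pt q₀ - u) := by
      intro u
      by_cases hu : u = pt q₀
      · rw [hu, hh0, sub_self, cj_eq_zero.2 rfl, mul_zero]
      · simp only [k]
        rw [if_neg hu, div_mul_cancel₀]
        intro h0
        exact hu (sub_eq_zero.1 (cj_eq_zero.1 h0)).symm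
    refine ⟨k, ?_, ?_, ?_⟩
    · rw [continuous_iff_continuousAt]
      intro u₁
      by_cases hu : u₁ = pt q₀
      · subst hu
        have hev : k =ᶠ[𝓝 (pt q₀)] fun u => Fact_r q₀ u / ∏ q ∈ Q, cj q (pt q - u) := by
          filter_upwards [hPc.continuousAt.eventually_ne hP0] with u hu
          by_cases hu1 : u = pt q₀
          · simp only [k]
            rw [if_pos hu1, hu1]
            unfold Fact_r
            rw [if_pos rfl]
          · simp only [k]
            rw [if_neg hu1]
            have h2 : cj q₀ (pt q₀ - u) ≠ 0 :=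
              fun h0 => hu1 (sub_eq_zero.1 (cj_eq_zero.1 h0)).symm
            rw [div_eq_div_iff h2 hu, ← hg, Fact_g q₀ u]
        refine ContinuousAt.congr ?_ hev.symm
        exact (Fact_r_at q₀).div hPc.continuousAt hP0
      · have hev : k =ᶠ[𝓝 u₁] fun u => h u / cj q₀ (pt q₀ - u) := by
          filter_upwards [isOpen_ne.mem_nhds hu] with u hu2
          simp only [k]
          rw [if_neg hu2]
        refine ContinuousAt.congr ?_ hev.symm
        refine hc.continuousAt.div ?_ ?_
        · exact ((cj_cont q₀).comp (continuous_const.sub continuous_id)).continuousAt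
        · intro h0
          exact hu (sub_eq_zero.1 (cj_eq_zero.1 h0)).symm
    · intro u
      rw [Finset.prod_insert hq₀, ← mul_assoc, ← hmul]
      exact hg u
    · intro u hu
      by_cases hu1 : u = pt q₀
      · simp only [k]
        rw [if_pos hu1]
        exact div_ne_zero (Fact_c_ne q₀) hP0
      · have h1 : h u ≠ 0 := by
          refine hne u fun q hq => ?_
          by_cases hqq : q = q₀
          · rw [hqq]
            exact hu1
          · exact hu q fun h2 => (Finset.mem_insert.1 h2).elim hqq hq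
        intro h0
        rw [hmul u, h0, zero_mul] at h1
        exact h1 rfl

end TOR4
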