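import Pool.Agent.TOR4.ConfA
import Pool.Agent.ASP87.ExtBasic

/-!
# TOR4/FlatC: closed flat orbifolds `S²(2,2,2,2)` (at most 3 particles) and `S²(3,3,3)` (2 particles)

`PF k n w = {x : x_j ≠ ζ x_i + a + b w, i ≠ j, ζ^k = 1, a, b ∈ ℤ}` is `PB_n(ℂ, H)`, `H` = the maps
`z ↦ ζ z + a + b w`.
`k = 2`, `n = 2`: `(x, y) ↦ (x + y, x - y)` is a homeomorphism with `(ℂ ∖ Λ)²`; `n = 3`:
`x ↦ (x_1 + x_2, x_0 + x_2, x_0 + x_1) = t`, `t_i ∉ Λ`, `t_i - t_j ∉ Λ` (`D_3 = A_3`). `k = 3`, `n = 2`:
`(x, y) ↦ (x - y, -w (x - w y)) = (u, v)`, `u, v, u - v ∉ Λ` (`u - v = - w² (x - w² y)` up to sign).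
`lA w` = the real linear map with `lA w (a + b w) = a + b i`.
-/

namespace TOR4

open Complex Topology Set ASP87

/-- `PB_n(ℂ, H)`, `H` = the group of the maps `z ↦ ζ z + a + b w`, `ζ^k = 1`, `a, b ∈ ℤ` -/
def PF (k n : ℕ) (w : ℂ) : Set (Fin n → ℂ) :=
  {x | ∀ i j, i ≠ j → ∀ ζ : ℂ, ζ ^ k = 1 → ∀ a b : ℤ, x j ≠ ζ * x i + a + b * w}

/-- the real linear map that sends `w` to `i` -/
noncomputable def lA (w z : ℂ) : ℂ := ((z.re - z.im * w.re / w.im : ℝ) : ℂ) + ((z.im / w.im : ℝ) : ℂ) * I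

/-- its inverse -/
noncomputable def lB (w z : ℂ) : ℂ := (z.re : ℂ) + (z.im : ℂ) * w

theorem lA_re (w z : ℂ) : (lA w z).re = z.re - z.im * w.re / w.im := by
  rw [lA, add_re, ofReal_re, re_ofReal_mul, I_re, mul_zero, add_zero]

theorem lA_im (w z : ℂ) : (lA w z).im = z.im / w.im := by
  rw [lA, add_im, ofReal_im, im_ofReal_mul, I_im, mul_one, zero_add]

theorem lB_re (w z : ℂ) : (lB w z).re = z.re + z.im * w.re := by
  rw [lB, add_re, ofReal_re, re_ofReal_mul]

theorem lB_im (w z : ℂ) : (lB w z).im = z.im * w.im := by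
  rw [lB, add_im, ofReal_im, im_ofReal_mul, zero_add]

theorem lB_lA {w : ℂ} (hw : w.im ≠ 0) (z : ℂ) : lB w (lA w z) = z := by
  apply Complex.ext
  · rw [lB_re, lA_re, lA_im]
    field_simp
    ring
  · rw [lB_im, lA_im, div_mul_cancel₀ _ hw]

theorem lA_lB {w : ℂ} (hw : w.im ≠ 0) (z : ℂ) : lA w (lB w z) = z := by
  apply Complex.ext
  · rw [lA_re, lB_re, lB_im]
    field_simp
    ring
  · rw [lA_im, lB_im, mul_div_cancel_right₀ _ hw]

theorem lA_cont (w : ℂ) : Continuous (lA w) := by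
  unfold lA
  fun_prop

theorem lB_cont (w : ℂ) : Continuous (lB w) := by
  unfold lB
  fun_prop

theorem lA_sub (w z z' : ℂ) : lA w (z - z') = lA w z - lA w z' := by
  apply Complex.ext
  · rw [sub_re, lA_re, lA_re, lA_re, sub_re, sub_im]
    ring
  · rw [sub_im, lA_im, lA_im, lA_im, sub_im]
    ring

theorem lA_zero' (w : ℂ) : lA w 0 = 0 := by
  have := lA_sub w 0 0
  simpa using this

theorem lA_neg (w z : ℂ) : lA w (-z) = -lA w z := by
  have := lA_sub w 0 z
  rwa [zero_sub, lA_zero', zero_sub] at this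

/-- the lattice `ℤ + ℤ w` -/
theorem glA {w : ℂ} (hw : w.im ≠ 0) (z : ℂ) : g (lA w z) = 0 ↔ ∃ a b : ℤ, z = a + b * w := by
  rw [g_zero]
  constructor
  · rintro ⟨q, hq⟩
    refine ⟨q.1, q.2, ?_⟩
    rw [← lB_lA hw z, hq, lB, pt_re, pt_im]
    push_cast
    ring
  · rintro ⟨a, b, rfl⟩
    refine ⟨(a, b), ?_⟩
    have h : lB w (pt (a, b)) = a + b * w := by
      rw [lB, pt_re, pt_im]
      push_cast
      ring
    rw [← h, lA_lB hw]

/-- `ConfT B` in the coordinates of the lattice `ℤ + ℤ w`, base point removed: `t i, t i - t j ∉ ℤ + ℤ w` -/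
theorem ext_TA {w : ℂ} (hw : w.im ≠ 0) (n : ℕ) :
    Asph {t : Fin n → ℂ | (∀ i, g (lA w (t i)) ≠ 0) ∧ ∀ i j, i ≠ j → g (lA w (t i - t j)) ≠ 0} := by
  intro N hN
  refine ext_retract (X := ConfT (Option (Fin n)))
    (fun t => ⟨fun o => o.elim 0 fun i => lA w (t.1 i), ?_⟩) ?_
    (fun b => ⟨fun i => lB w (b.1 (some i) - b.1 none), ?_, ?_⟩) ?_ ?_ (asph_confT _ N hN)
  · rintro (_ | i) (_ | j) hij
    · exact absurd rfl hij
    · show g (0 - lA w (t.1 j)) ≠ 0
      rw [zero_sub, g_neg, neg_ne_zero]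
      exact t.2.1 j
    · show g (lA w (t.1 i) - 0) ≠ 0
      rw [sub_zero]
      exact t.2.1 i
    · show g (lA w (t.1 i) - lA w (t.1 j)) ≠ 0
      rw [← lA_sub]
      exact t.2.2 i j fun h => hij (by rw [h])
  · refine Continuous.subtype_mk (continuous_pi fun o => ?_) _
    rcases o with _ | i
    · exact continuous_const
    · exact (lA_cont w).comp ((continuous_apply i).comp continuous_subtype_val)
  · intro i
    rw [lA_lB hw]
    exact b.2 _ _ (by simp)
  · intro i j hij
    rw [lA_sub, lA_lB hw, lA_lB hw, sub_sub_sub_cancel_right]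
    exact b.2 _ _ (by simpa using hij)
  · refine Continuous.subtype_mk (continuous_pi fun i => (lB_cont w).comp ?_) _
    exact ((continuous_apply (some i)).comp continuous_subtype_val).sub
      ((continuous_apply none).comp continuous_subtype_val)
  · intro t
    refine Subtype.ext (funext fun i => ?_)
    show lB w (lA w (t.1 i) - 0) = t.1 i
    rw [sub_zero, lB_lA hw]

theorem PF2_iff {w : ℂ} (hw : w.im ≠ 0) {n : ℕ} (x : Fin n → ℂ) :
    x ∈ PF 2 n w ↔ ∀ i j, i ≠ j → g (lA w (x j - x i)) ≠ 0 ∧ g (lA w (x j + x i)) ≠ 0 := by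
  constructor
  · intro h i j hij
    constructor
    · rw [ne_eq, glA hw]
      rintro ⟨a, b, hab⟩
      exact h i j hij 1 (one_pow 2) a b (by linear_combination hab)
    · rw [ne_eq, glA hw]
      rintro ⟨a, b, hab⟩
      exact h i j hij (-1) (by norm_num) a b (by linear_combination hab)
  · intro h i j hij ζ hζ a b hx
    obtain ⟨h1, h2⟩ := h i j hij
    rw [ne_eq, glA hw] at h1 h2
    have h3 : (ζ - 1) * (ζ + 1) = 0 := by linear_combination hζ
    rcases mul_eq_zero.1 h3 with h3 | h3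
    · exact h1 ⟨a, b, by rw [hx, sub_eq_zero.1 h3]; ring⟩
    · exact h2 ⟨a, b, by rw [hx, eq_neg_of_add_eq_zero_left h3]; ring⟩

/-- at most one particle -/
theorem asph_PF_le {k n : ℕ} (hn : n ≤ 1) (w : ℂ) : Asph (PF k n w) := by
  have hu : PF k n w = univ := by
    refine eq_univ_of_forall fun x i j hij => ?_
    exfalso
    apply hij
    apply Fin.ext
    omega
  intro N hN
  rw [hu]
  refine ext_retract (X := Fin n → ℂ) (fun x => x.1) continuous_subtype_val
    (fun x => ⟨x, mem_univ _⟩) (Continuous.subtype_mk continuous_id _) (fun x => rfl) ?_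
  exact ext_contractible _ N

theorem asph_PF_two {w : ℂ} (hw : w.im ≠ 0) : Asph (PF 2 2 w) := by
  intro N hN
  have h1 := ext_TA hw 1 N hN
  refine ext_retract
    (X := {t : Fin 1 → ℂ | (∀ i, g (lA w (t i)) ≠ 0) ∧ ∀ i j, i ≠ j → g (lA w (t i - t j)) ≠ 0} ×
      {t : Fin 1 → ℂ | (∀ i, g (lA w (t i)) ≠ 0) ∧ ∀ i j, i ≠ j → g (lA w (t i - t j)) ≠ 0})
    (fun x => (⟨fun _ => x.1 1 + x.1 0, ?_, ?_⟩, ⟨fun _ => x.1 1 - x.1 0, ?_, ?_⟩)) ?_
    (fun y => ⟨![(y.1.1 0 - y.2.1 0) / 2, (y.1.1 0 + y.2.1 0) / 2], ?_⟩) ?_ ?_ (ext_prod h1 h1)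
  · exact fun _ => ((PF2_iff hw x.1).1 x.2 0 1 (by decide)).2
  · exact fun i j hij => absurd (Subsingleton.elim i j) hij
  · exact fun _ => ((PF2_iff hw x.1).1 x.2 0 1 (by decide)).1
  · exact fun i j hij => absurd (Subsingleton.elim i j) hij
  · have hc : ∀ i, Continuous (fun x : PF 2 2 w => x.1 i) := fun i =>
      (continuous_apply i).comp continuous_subtype_val
    refine Continuous.prodMk (Continuous.subtype_mk (continuous_pi fun _ => ?_) _)
      (Continuous.subtype_mk (continuous_pi fun _ => ?_) _)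
    · exact (hc 1).add (hc 0)
    · exact (hc 1).sub (hc 0)
  · rw [PF2_iff hw]
    have h1 := y.1.2.1 0
    have h2 := y.2.2.1 0
    intro i j hij
    fin_cases i <;> fin_cases j
    · exact absurd rfl hij
    · constructor
      · convert h2 using 3
        simp
        ring
      · convert h1 using 3
        simp
        ring
    · constructor
      · have h3 : g (lA w (-(y.2.1 0))) ≠ 0 := by
          rw [lA_neg, g_neg, neg_ne_zero]
          exact h2
        convert h3 using 3
        simp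
        ring
      · convert h1 using 3
        simp
        ring
    · exact absurd rfl hij
  · have hc1 : Continuous (fun y : {t : Fin 1 → ℂ | (∀ i, g (lA w (t i)) ≠ 0) ∧
        ∀ i j, i ≠ j → g (lA w (t i - t j)) ≠ 0} => y.1 0) :=
      (continuous_apply 0).comp continuous_subtype_val
    refine Continuous.subtype_mk (continuous_pi fun i => ?_) _
    fin_cases i
    · exact ((hc1.comp continuous_fst).sub (hc1.comp continuous_snd)).div_const 2
    · exact ((hc1.comp continuous_fst).add (hc1.comp continuous_snd)).div_const 2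
  · intro x
    refine Subtype.ext (funext fun i => ?_)
    fin_cases i
    · show (x.1 1 + x.1 0 - (x.1 1 - x.1 0)) / 2 = x.1 0
      ring
    · show (x.1 1 + x.1 0 + (x.1 1 - x.1 0)) / 2 = x.1 1
      ring

theorem asph_PF_three {w : ℂ} (hw : w.im ≠ 0) : Asph (PF 2 3 w) := by
  intro N hN
  have h1 := ext_TA hw 3 N hN
  refine ext_retract
    (X := {t : Fin 3 → ℂ | (∀ i, g (lA w (t i)) ≠ 0) ∧ ∀ i j, i ≠ j → g (lA w (t i - t j)) ≠ 0})
    (fun x => ⟨![x.1 1 + x.1 2, x.1 0 + x.1 2, x.1 0 + x.1 1], ?_, ?_⟩) ?_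
    (fun y => ⟨![(y.1 1 + y.1 2 - y.1 0) / 2, (y.1 0 + y.1 2 - y.1 1) / 2,
      (y.1 0 + y.1 1 - y.1 2) / 2], ?_⟩) ?_ ?_ h1
  · have h2 := (PF2_iff hw x.1).1 x.2
    intro i
    fin_cases i
    · have := (h2 2 1 (by decide)).2
      exact this
    · have := (h2 2 0 (by decide)).2
      exact this
    · have := (h2 1 0 (by decide)).2
      exact this
  · have h2 := (PF2_iff hw x.1).1 x.2
    intro i j hij
    fin_cases i <;> fin_cases j
    · exact absurd rfl hij
    · have := (h2 0 1 (by decide)).1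
      convert this using 3
      simp
    · have := (h2 0 2 (by decide)).1
      convert this using 3
      simp
      ring
    · have := (h2 1 0 (by decide)).1
      convert this using 3
      simp
    · exact absurd rfl hij
    · have := (h2 1 2 (by decide)).1
      convert this using 3
      simp
    · have := (h2 2 0 (by decide)).1
      convert this using 3
      simp
      ring
    · have := (h2 2 1 (by decide)).1
      convert this using 3
      simp
    · exact absurd rfl hij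
  · have hc : ∀ i, Continuous (fun x : PF 2 3 w => x.1 i) := fun i =>
      (continuous_apply i).comp continuous_subtype_val
    refine Continuous.subtype_mk (continuous_pi fun i => ?_) _
    fin_cases i
    · exact (hc 1).add (hc 2)
    · exact (hc 0).add (hc 2)
    · exact (hc 0).add (hc 1)
  · rw [PF2_iff hw]
    have h2 := y.2.1
    have h3 := y.2.2
    intro i j hij
    fin_cases i <;> fin_cases j
    · exact absurd rfl hij
    · constructor
      · convert h3 0 1 (by decide) using 3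
        simp
        ring
      · convert h2 2 using 3
        simp
        ring
    · constructor
      · convert h3 0 2 (by decide) using 3
        simp
        ring
      · convert h2 1 using 3
        simp
        ring
    · constructor
      · convert h3 1 0 (by decide) using 3
        simp
        ring
      · convert h2 2 using 3
        simp
        ring
    · exact absurd rfl hij
    · constructor
      · convert h3 1 2 (by decide) using 3
        simp
        ring
      · convert h2 0 using 3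
        simp
        ring
    · constructor
      · convert h3 2 0 (by decide) using 3
        simp
        ring
      · convert h2 1 using 3
        simp
        ring
    · constructor
      · convert h3 2 1 (by decide) using 3
        simp
        ring
      · convert h2 0 using 3
        simp
        ring
    · exact absurd rfl hij
  · have hc : ∀ i, Continuous (fun y : {t : Fin 3 → ℂ | (∀ i, g (lA w (t i)) ≠ 0) ∧
        ∀ i j, i ≠ j → g (lA w (t i - t j)) ≠ 0} => y.1 i) := fun i =>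
      (continuous_apply i).comp continuous_subtype_val
    refine Continuous.subtype_mk (continuous_pi fun i => ?_) _
    fin_cases i
    · exact (((hc 1).add (hc 2)).sub (hc 0)).div_const 2
    · exact (((hc 0).add (hc 2)).sub (hc 1)).div_const 2
    · exact (((hc 0).add (hc 1)).sub (hc 2)).div_const 2
  · intro x
    refine Subtype.ext (funext fun i => ?_)
    fin_cases i
    · show (x.1 0 + x.1 2 + (x.1 0 + x.1 1) - (x.1 1 + x.1 2)) / 2 = x.1 0
      ring
    · show (x.1 1 + x.1 2 + (x.1 0 + x.1 1) - (x.1 0 + x.1 2)) / 2 = x.1 1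
      ring
    · show (x.1 1 + x.1 2 + (x.1 0 + x.1 2) - (x.1 0 + x.1 1)) / 2 = x.1 2
      ring

theorem glA_mul {w : ℂ} (hw : w.im ≠ 0) (h3 : w ^ 2 + w + 1 = 0) (z : ℂ) :
    g (lA w (w * z)) = 0 ↔ g (lA w z) = 0 := by
  have key : ∀ z, g (lA w z) = 0 → g (lA w (w * z)) = 0 := by
    intro z hz
    rw [glA hw] at hz ⊢
    obtain ⟨a, b, rfl⟩ := hz
    refine ⟨-b, a - b, ?_⟩
    push_cast
    linear_combination (b : ℂ) * h3
  refine ⟨fun h => ?_, key z⟩
  have h4 := key _ (key _ h)
  have h5 : w * (w * (w * z)) = z := by linear_combination (w - 1) * z * h3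
  rwa [h5] at h4

theorem glA_neg {w : ℂ} (z : ℂ) : g (lA w (-z)) = 0 ↔ g (lA w z) = 0 := by
  rw [lA_neg, g_neg, neg_eq_zero]

theorem PF3_iff {w : ℂ} (hw : w.im ≠ 0) (h3 : w ^ 2 + w + 1 = 0) (x : Fin 2 → ℂ) :
    x ∈ PF 3 2 w ↔ g (lA w (x 0 - x 1)) ≠ 0 ∧ g (lA w (x 0 - w * x 1)) ≠ 0 ∧
      g (lA w (x 0 - w ^ 2 * x 1)) ≠ 0 := by
  have hw3 : w ^ 3 = 1 := by linear_combination (w - 1) * h3
  constructor
  · intro h
    refine ⟨?_, ?_, ?_⟩
    · rw [ne_eq, glA hw]
      rintro ⟨a, b, hab⟩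
      exact h 1 0 (by decide) 1 (one_pow 3) a b (by linear_combination hab)
    · rw [ne_eq, glA hw]
      rintro ⟨a, b, hab⟩
      exact h 1 0 (by decide) w hw3 a b (by linear_combination hab)
    · rw [ne_eq, glA hw]
      rintro ⟨a, b, hab⟩
      exact h 1 0 (by decide) (w ^ 2) (by rw [← pow_mul, mul_comm, pow_mul, hw3, one_pow]) a b
        (by linear_combination hab)
  · rintro ⟨h4, h5, h6⟩
    -- it is enough to treat `i = 1`, `j = 0`
    have key : ∀ ζ : ℂ, ζ ^ 3 = 1 → g (lA w (x 0 - ζ * x 1)) ≠ 0 := by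
      intro ζ hζ
      have h7 : (ζ - 1) * ((ζ - w) * (ζ - w ^ 2)) = 0 := by
        linear_combination hζ + (-(ζ ^ 2) + ζ * w) * h3 + (1 - w) * h3
      rcases mul_eq_zero.1 h7 with h8 | h8
      · rw [sub_eq_zero.1 h8, one_mul]
        exact h4
      · rcases mul_eq_zero.1 h8 with h9 | h9
        · rw [sub_eq_zero.1 h9]
          exact h5
        · rw [sub_eq_zero.1 h9]
          exact h6
    intro i j hij ζ hζ a b hx
    fin_cases i <;> fin_cases j
    · exact absurd rfl hij
    · -- `x 1 = ζ x 0 + λ`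
      have hx' : x 1 = ζ * x 0 + a + b * w := hx
      have h7 := key (ζ ^ 2) (by rw [← pow_mul, mul_comm, pow_mul, hζ, one_pow])
      apply h7
      have h8 : x 0 - ζ ^ 2 * x 1 = -(ζ ^ 2 * (a + b * w)) := by
        rw [hx']
        linear_combination (-x 0) * hζ
      rw [h8, glA_neg]
      have h9 : g (lA w ((a : ℂ) + b * w)) = 0 := (glA hw _).2 ⟨a, b, rfl⟩
      have h10 : (ζ - 1) * ((ζ - w) * (ζ - w ^ 2)) = 0 := by
        linear_combination hζ + (-(ζ ^ 2) + ζ * w) * h3 + (1 - w) * h3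
      rcases mul_eq_zero.1 h10 with h11 | h11
      · rw [sub_eq_zero.1 h11, one_pow, one_mul]
        exact h9
      · rcases mul_eq_zero.1 h11 with h12 | h12
        · rw [sub_eq_zero.1 h12, pow_two, mul_assoc, glA_mul hw h3, glA_mul hw h3]
          exact h9
        · rw [sub_eq_zero.1 h12]
          have h13 : (w ^ 2) ^ 2 * ((a : ℂ) + b * w) = w * (a + b * w) := by
            linear_combination (w * (a + b * w)) * hw3
          rw [h13, glA_mul hw h3]
          exact h9
    · have hx' : x 0 = ζ * x 1 + a + b * w := hx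
      refine key ζ hζ ((glA hw _).2 ⟨a, b, ?_⟩)
      rw [hx']
      ring
    · exact absurd rfl hij

theorem asph_PF_tri {w : ℂ} (hw : w.im ≠ 0) (h3 : w ^ 2 + w + 1 = 0) : Asph (PF 3 2 w) := by
  intro N hN
  have hw3 : w ^ 3 = 1 := by linear_combination (w - 1) * h3
  have hd : w ^ 2 - w ≠ 0 := by
    intro h
    have h4 : w * (w - 1) = 0 := by linear_combination h
    rcases mul_eq_zero.1 h4 with h5 | h5
    · rw [h5] at h3
      norm_num at h3
    · rw [sub_eq_zero.1 h5] at h3
      norm_num at h3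
  have hD : (w ^ 2 - w) * (w ^ 2 - w)⁻¹ = 1 := mul_inv_cancel₀ hd
  have h1 := ext_TA hw 2 N hN
  have e1 : ∀ x y : ℂ, g (lA w (-w * (x - w * y))) = 0 ↔ g (lA w (x - w * y)) = 0 := by
    intro x y
    rw [neg_mul, glA_neg, glA_mul hw h3]
  have e2 : ∀ x y : ℂ, g (lA w (x - y - -w * (x - w * y))) = 0 ↔ g (lA w (x - w ^ 2 * y)) = 0 := by
    intro x y
    have h4 : x - y - -w * (x - w * y) = -(w * (w * (x - w ^ 2 * y))) := by
      linear_combination (x - y * w ^ 2) * h3 + (y * w - y) * h3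
    rw [h4, glA_neg, glA_mul hw h3, glA_mul hw h3]
  refine ext_retract
    (X := {t : Fin 2 → ℂ | (∀ i, g (lA w (t i)) ≠ 0) ∧ ∀ i j, i ≠ j → g (lA w (t i - t j)) ≠ 0})
    (fun x => ⟨![x.1 0 - x.1 1, -w * (x.1 0 - w * x.1 1)], ?_, ?_⟩) ?_
    (fun y => ⟨![y.1 0 + (y.1 1 + w * y.1 0) / (w ^ 2 - w), (y.1 1 + w * y.1 0) / (w ^ 2 - w)], ?_⟩)
    ?_ ?_ h1
  · obtain ⟨h4, h5, h6⟩ := (PF3_iff hw h3 x.1).1 x.2
    intro i
    fin_cases i
    · exact h4
    · exact (not_congr (e1 _ _)).2 h5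
  · obtain ⟨h4, h5, h6⟩ := (PF3_iff hw h3 x.1).1 x.2
    intro i j hij
    fin_cases i <;> fin_cases j
    · exact absurd rfl hij
    · exact (not_congr (e2 _ _)).2 h6
    · show g (lA w (-w * (x.1 0 - w * x.1 1) - (x.1 0 - x.1 1))) ≠ 0
      rw [← neg_sub, ne_eq, glA_neg]
      exact (not_congr (e2 _ _)).2 h6
    · exact absurd rfl hij
  · have hc : ∀ i, Continuous (fun x : PF 3 2 w => x.1 i) := fun i =>
      (continuous_apply i).comp continuous_subtype_val
    refine Continuous.subtype_mk (continuous_pi fun i => ?_) _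
    fin_cases i
    · exact (hc 0).sub (hc 1)
    · exact continuous_const.mul ((hc 0).sub (continuous_const.mul (hc 1)))
  · rw [PF3_iff hw h3]
    have h4 : ∀ u v : ℂ, (u + (v + w * u) / (w ^ 2 - w)) - (v + w * u) / (w ^ 2 - w) = u := by
      intro u v
      ring
    have h5 : ∀ u v : ℂ, -w * ((u + (v + w * u) / (w ^ 2 - w)) - w * ((v + w * u) / (w ^ 2 - w))) = v := by
      intro u v
      linear_combination (v + w * u) * hD
    have h6 := y.2.1
    have h7 := y.2.2
    refine ⟨?_, ?_, ?_⟩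
    · show g (lA w ((y.1 0 + (y.1 1 + w * y.1 0) / (w ^ 2 - w)) - (y.1 1 + w * y.1 0) / (w ^ 2 - w))) ≠ 0
      rw [h4]
      exact h6 0
    · refine (not_congr (e1 _ _)).1 ?_
      show ¬ g (lA w (-w * ((y.1 0 + (y.1 1 + w * y.1 0) / (w ^ 2 - w)) -
        w * ((y.1 1 + w * y.1 0) / (w ^ 2 - w))))) = 0
      rw [h5]
      exact h6 1
    · refine (not_congr (e2 _ _)).1 ?_
      show ¬ g (lA w ((y.1 0 + (y.1 1 + w * y.1 0) / (w ^ 2 - w)) - (y.1 1 + w * y.1 0) / (w ^ 2 - w) -
        -w * ((y.1 0 + (y.1 1 + w * y.1 0) / (w ^ 2 - w)) -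
        w * ((y.1 1 + w * y.1 0) / (w ^ 2 - w))))) = 0
      rw [h5, h4]
      exact h7 0 1 (by decide)
  · have hc : ∀ i, Continuous (fun y : {t : Fin 2 → ℂ | (∀ i, g (lA w (t i)) ≠ 0) ∧
        ∀ i j, i ≠ j → g (lA w (t i - t j)) ≠ 0} => y.1 i) := fun i =>
      (continuous_apply i).comp continuous_subtype_val
    refine Continuous.subtype_mk (continuous_pi fun i => ?_) _
    fin_cases i
    · exact (hc 0).add (((hc 1).add (continuous_const.mul (hc 0))).div_const _)
    · exact ((hc 1).add (continuous_const.mul (hc 0))).div_const _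
  · intro x
    have h4 : (-w * (x.1 0 - w * x.1 1) + w * (x.1 0 - x.1 1)) / (w ^ 2 - w) = x.1 1 := by
      linear_combination (x.1 1) * hD
    refine Subtype.ext (funext fun i => ?_)
    fin_cases i
    · show x.1 0 - x.1 1 + (-w * (x.1 0 - w * x.1 1) + w * (x.1 0 - x.1 1)) / (w ^ 2 - w) = x.1 0
      rw [h4]
      ring
    · exact h4

/-- all cases -/
theorem asph_PF {k n : ℕ} {w : ℂ} (hw : w.im ≠ 0)
    (h : (k = 2 ∧ n ≤ 3) ∨ (k = 3 ∧ n ≤ 2 ∧ w ^ 2 + w + 1 = 0)) : Asph (PF k n w) := by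
  rcases Nat.lt_or_ge 1 n with hn | hn
  · rcases h with ⟨rfl, h1⟩ | ⟨rfl, h1, h2⟩
    · obtain rfl | rfl : n = 2 ∨ n = 3 := by omega
      · exact asph_PF_two hw
      · exact asph_PF_three hw
    · obtain rfl : n = 2 := by omega
      exact asph_PF_tri hw h2
  · exact asph_PF_le hn w

end TOR4
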