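import Pool.Agent.TOR4.Defs

/-!
# TOR4/GB: the function `g z = sin(π Re z) + i sin(π Im z)`

* `g_zero`: `g z = 0` iff both sines vanish (`Real.sin_eq_zero_iff`).
* `g_norm_add`: `sin (π x + a π) = (-1)^a sin (π x)`, so `|g (z + λ)| = |g z|`.
* `g_lip`: `|sin a - sin b| ≤ |a - b|`.
* `g_lower`: `λ = (round x, round y)`; `|sin (π ξ)| ≥ 2 |ξ|` for `|ξ| ≤ 1/2` (`Real.mul_le_sin`).
-/

namespace TOR4

open Complex Topology Set ASP87

theorem g_re (z : ℂ) : (g z).re = Real.sin (Real.pi * z.re) := by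
  rw [g, add_re, ofReal_re, re_ofReal_mul, I_re, mul_zero, add_zero]

theorem g_im (z : ℂ) : (g z).im = Real.sin (Real.pi * z.im) := by
  rw [g, add_im, ofReal_im, im_ofReal_mul, I_im, mul_one, zero_add]

theorem pt_re (q : ℤ × ℤ) : (pt q).re = q.1 := by
  simp [pt]

theorem pt_im (q : ℤ × ℤ) : (pt q).im = q.2 := by
  simp [pt]

theorem g_cont : Continuous g := by
  unfold g
  fun_prop

theorem g_zero {z : ℂ} : g z = 0 ↔ ∃ q, z = pt q := by
  have hpi : Real.pi ≠ 0 := Real.pi_ne_zero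
  constructor
  · intro h
    have h1 : Real.sin (Real.pi * z.re) = 0 := by rw [← g_re, h, zero_re]
    have h2 : Real.sin (Real.pi * z.im) = 0 := by rw [← g_im, h, zero_im]
    obtain ⟨a, ha⟩ := Real.sin_eq_zero_iff.1 h1
    obtain ⟨b, hb⟩ := Real.sin_eq_zero_iff.1 h2
    refine ⟨(a, b), Complex.ext ?_ ?_⟩
    · rw [pt_re]
      apply mul_left_cancel₀ hpi
      rw [← ha, mul_comm]
    · rw [pt_im]
      apply mul_left_cancel₀ hpi
      rw [← hb, mul_comm]
  · rintro ⟨q, rfl⟩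
    apply Complex.ext
    · rw [g_re, pt_re, mul_comm, Real.sin_int_mul_pi, zero_re]
    · rw [g_im, pt_im, mul_comm, Real.sin_int_mul_pi, zero_im]

theorem g_neg (z : ℂ) : g (-z) = -g z := by
  apply Complex.ext
  · rw [g_re, neg_re, neg_re, g_re, mul_neg, Real.sin_neg]
  · rw [g_im, neg_im, neg_im, g_im, mul_neg, Real.sin_neg]

private theorem gb_sin (x : ℝ) (a : ℤ) : Real.sin (Real.pi * (x + a)) ^ 2 = Real.sin (Real.pi * x) ^ 2 := by
  have h1 : Real.pi * (x + a) = Real.pi * x + a * Real.pi := by ring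
  rw [h1, Real.sin_add_int_mul_pi, mul_pow]
  rcases Int.even_or_odd a with h | h
  · rw [h.neg_one_zpow]
    ring
  · rw [h.neg_one_zpow]
    ring

theorem g_norm_sq (z : ℂ) : ‖g z‖ ^ 2 = Real.sin (Real.pi * z.re) ^ 2 + Real.sin (Real.pi * z.im) ^ 2 := by
  rw [← Complex.normSq_eq_norm_sq, Complex.normSq_apply, g_re, g_im]
  ring

theorem g_norm_add (z : ℂ) (q : ℤ × ℤ) : ‖g (z + pt q)‖ = ‖g z‖ := by
  have h : ‖g (z + pt q)‖ ^ 2 = ‖g z‖ ^ 2 := by
    rw [g_norm_sq, g_norm_sq, add_re, add_im, pt_re, pt_im, gb_sin, gb_sin]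
  exact (pow_left_inj₀ (norm_nonneg _) (norm_nonneg _) two_ne_zero).1 h

private theorem gb_sub (a b : ℝ) : |Real.sin a - Real.sin b| ≤ |a - b| := by
  have := Real.abs_sin_sub_sin_le a b
  exact this

theorem g_lip (z z' : ℂ) : ‖g z - g z'‖ ≤ Real.pi * ‖z - z'‖ := by
  have h : ‖g z - g z'‖ ^ 2 ≤ (Real.pi * ‖z - z'‖) ^ 2 := by
    rw [mul_pow, ← Complex.normSq_eq_norm_sq, ← Complex.normSq_eq_norm_sq, Complex.normSq_apply,
      Complex.normSq_apply, sub_re, sub_im, g_re, g_im, g_re, g_im, sub_re, sub_im]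
    have h1 := gb_sub (Real.pi * z.re) (Real.pi * z'.re)
    have h2 := gb_sub (Real.pi * z.im) (Real.pi * z'.im)
    have h3 := sq_le_sq' (by linarith [abs_nonneg (Real.sin (Real.pi * z.re) - Real.sin (Real.pi * z'.re)), abs_nonneg (Real.pi * z.re - Real.pi * z'.re)]) h1
    have h4 := sq_le_sq' (by linarith [abs_nonneg (Real.sin (Real.pi * z.im) - Real.sin (Real.pi * z'.im)), abs_nonneg (Real.pi * z.im - Real.pi * z'.im)]) h2
    rw [sq_abs, sq_abs] at h3 h4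
    nlinarith
  exact abs_le_of_sq_le_sq' h (by positivity) |>.2

private theorem gb_low {x : ℝ} (hx : |x| ≤ 1 / 2) : 4 * x ^ 2 ≤ Real.sin (Real.pi * x) ^ 2 := by
  have hpi := Real.pi_pos
  have key : ∀ y : ℝ, 0 ≤ y → y ≤ 1 / 2 → 2 * y ≤ Real.sin (Real.pi * y) := by
    intro y h0 h1
    have h2 := Real.mul_le_sin (x := Real.pi * y) (by positivity) (by nlinarith)
    calc 2 * y = 2 / Real.pi * (Real.pi * y) := by field_simp
      _ ≤ _ := h2
  rcases le_total 0 x with h | h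
  · have h1 := key x h (by rwa [abs_of_nonneg h] at hx)
    nlinarith
  · have h1 := key (-x) (by linarith) (by rwa [abs_of_nonpos h] at hx)
    have h2 : Real.sin (Real.pi * -x) = -Real.sin (Real.pi * x) := by
      rw [show Real.pi * -x = -(Real.pi * x) by ring, Real.sin_neg]
    rw [h2] at h1
    nlinarith

theorem g_lower (z : ℂ) : ∃ q, 2 * ‖z - pt q‖ ≤ ‖g z‖ := by
  refine ⟨(round z.re, round z.im), ?_⟩
  set q : ℤ × ℤ := (round z.re, round z.im) with hq
  have h1 : 4 * (z.re - q.1) ^ 2 ≤ Real.sin (Real.pi * (z.re - q.1)) ^ 2 := gb_low (abs_sub_round _)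
  have h2 : 4 * (z.im - q.2) ^ 2 ≤ Real.sin (Real.pi * (z.im - q.2)) ^ 2 := gb_low (abs_sub_round _)
  have h3 := gb_sin (z.re - q.1) q.1
  have h4 := gb_sin (z.im - q.2) q.2
  rw [sub_add_cancel] at h3 h4
  have h : (2 * ‖z - pt q‖) ^ 2 ≤ ‖g z‖ ^ 2 := by
    rw [g_norm_sq, mul_pow, ← Complex.normSq_eq_norm_sq, Complex.normSq_apply, sub_re, sub_im,
      pt_re, pt_im, h3, h4]
    nlinarith
  exact abs_le_of_sq_le_sq' h (norm_nonneg _) |>.2

end TOR4
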