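import Pool.Agent.TOR4.ConfA

/-!
# TOR4/MainT: the E-trick on the torus

Points `Fin n ⊕ Fin l ⊕ Unit` (particles, punctures, cone point), relations `Fin n` (roots of `g (z i - c)`).
-/

namespace TOR4

open Complex Topology Set ASP87

/-- two points must be different mod `ℤ[i]` unless they are a particle and the cone point -/
def neT {n l : ℕ} (a b : Fin n ⊕ Fin l ⊕ Unit) : Prop :=
  a ≠ b ∧ ¬ ∃ i : Fin n, (a = Sum.inl i ∧ b = Sum.inr (Sum.inr ())) ∨ (b = Sum.inl i ∧ a = Sum.inr (Sum.inr ()))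

def ST (n l : ℕ) : SysT (Fin n ⊕ Fin l ⊕ Unit) (Fin n) where
  src i := Sum.inl i
  tgt _ := Sum.inr (Sum.inr ())
  ne := neT

/-- the particles of the torus with punctures `d` and one cone point of order `m` at `0` -/
def XT (n : ℕ) {l : ℕ} (m : ℕ) (d : Fin l → ℂ) : Set ((Fin n → ℂ) × (Fin n → ℂ)) :=
  {y | (∀ i, y.2 i ^ m = g (y.1 i)) ∧ (∀ i j, i ≠ j → g (y.1 i - y.1 j) ≠ 0) ∧
    ∀ i a, g (y.1 i - d a) ≠ 0}

private theorem g_swap {z w : ℂ} (h : g (z - w) ≠ 0) : g (w - z) ≠ 0 := by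
  rw [← neg_sub, g_neg]
  exact neg_ne_zero.2 h

private theorem neT_inr {n l : ℕ} (b b' : Fin l ⊕ Unit) (h : b ≠ b') :
    neT (n := n) (Sum.inr b) (Sum.inr b') := by
  refine ⟨fun h' => h (Sum.inr_injective h'), ?_⟩
  rintro ⟨i, ⟨h1, -⟩ | ⟨h1, -⟩⟩ <;> cases h1

/-- particles and punctures -/
private def jzd {n l : ℕ} (b : Fin n ⊕ Fin l) : Fin n ⊕ Fin l ⊕ Unit :=
  match b with
  | Sum.inl i => Sum.inl i
  | Sum.inr a => Sum.inr (Sum.inl a)

private theorem neT_jzd {n l : ℕ} (b b' : Fin n ⊕ Fin l) (h : b ≠ b') :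
    neT (jzd b) (jzd b') := by
  refine ⟨fun h' => h ?_, ?_⟩
  · rcases b with i | a <;> rcases b' with i' | a' <;> simp [jzd] at h' ⊢ <;> exact h'
  · rcases b with i | a <;> rcases b' with i' | a' <;> rintro ⟨i, ⟨h1, h2⟩ | ⟨h1, h2⟩⟩ <;>
      simp [jzd] at h1 h2

/-- the fibre over the particles and the punctures -/
private theorem fib_zd {n l m : ℕ} (hm : m ≠ 0) (b0 : ConfT (Fin n ⊕ Fin l)) :
    Asph (forgetT m (ST n l) jzd neT_jzd ⁻¹' {b0}) := by
  have h2 : Asph (SF m (fun i : Fin n => b0.1 (Sum.inl i)) (fun a : Fin l => b0.1 (Sum.inr a))) :=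
    asph_SF hm (fun i j h => b0.2 _ _ fun h' => h (Sum.inl_injective h'))
      (fun a b h => b0.2 _ _ fun h' => h (Sum.inr_injective h'))
      (fun i a => b0.2 _ _ fun h' => by cases h')
  have hval : ∀ y : (forgetT m (ST n l) jzd neT_jzd ⁻¹' {b0}), ∀ b,
      y.1.1.1 (jzd b) = b0.1 b := fun y b => congrFun (congrArg Subtype.val y.2) b
  have hS : ∀ y : (forgetT m (ST n l) jzd neT_jzd ⁻¹' {b0}),
      ((y.1.1.1 (Sum.inr (Sum.inr ())), y.1.1.2) : ℂ × (Fin n → ℂ)) ∈
        SF m (fun i : Fin n => b0.1 (Sum.inl i)) (fun a : Fin l => b0.1 (Sum.inr a)) := by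
    intro y
    refine ⟨fun i => ?_, fun a => ?_⟩
    · have h := y.1.2.1 i
      have e : y.1.1.1 (Sum.inl i) = b0.1 (Sum.inl i) := hval y (Sum.inl i)
      have h' : y.1.1.2 i ^ m = g (y.1.1.1 (Sum.inl i) - y.1.1.1 (Sum.inr (Sum.inr ()))) := h
      rw [e] at h'
      exact h'
    · have e : y.1.1.1 (Sum.inr (Sum.inl a)) = b0.1 (Sum.inr a) := hval y (Sum.inr a)
      have h : g (y.1.1.1 (Sum.inr (Sum.inr ())) - y.1.1.1 (Sum.inr (Sum.inl a))) ≠ 0 := by
        refine y.1.2.2 _ _ ⟨(fun h => by cases h), ?_⟩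
        rintro ⟨i, ⟨h1, -⟩ | ⟨h1, -⟩⟩ <;> cases h1
      rw [e] at h
      exact h
  have hG : ∀ z : SF m (fun i : Fin n => b0.1 (Sum.inl i)) (fun a : Fin l => b0.1 (Sum.inr a)),
      ((Sum.elim (fun i : Fin n => b0.1 (Sum.inl i)) (Sum.elim (fun a : Fin l => b0.1 (Sum.inr a))
        (fun _ : Unit => z.1.1)), z.1.2) : (Fin n ⊕ Fin l ⊕ Unit → ℂ) × (Fin n → ℂ)) ∈
        GT m (ST n l) := by
    intro z
    refine ⟨fun i => z.2.1 i, ?_⟩
    rintro (i | a | u) (j | b | v) ⟨hab, hnc⟩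
    · exact b0.2 _ _ fun h' => hab (congrArg Sum.inl (Sum.inl_injective h'))
    · exact b0.2 _ _ fun h' => by cases h'
    · exact absurd ⟨i, Or.inl ⟨rfl, rfl⟩⟩ hnc
    · exact b0.2 _ _ fun h' => by cases h'
    · exact b0.2 _ _ fun h' => hab (by rw [Sum.inr_injective h'])
    · exact g_swap (z.2.2 a)
    · exact absurd ⟨j, Or.inr ⟨rfl, rfl⟩⟩ hnc
    · exact z.2.2 b
    · exact absurd rfl hab
  intro d hd
  refine ext_retract (X := SF m (fun i : Fin n => b0.1 (Sum.inl i))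
      (fun a : Fin l => b0.1 (Sum.inr a)))
    (Y := (forgetT m (ST n l) jzd neT_jzd ⁻¹' {b0}))
    (fun y => ⟨_, hS y⟩) ?_ (fun z => ⟨⟨_, hG z⟩, Subtype.ext (funext fun b => ?_)⟩) ?_ ?_ (h2 d hd)
  · refine Continuous.subtype_mk (Continuous.prodMk ?_ ?_) _
    · exact (continuous_apply _).comp (continuous_fst.comp
        (continuous_subtype_val.comp continuous_subtype_val))
    · exact continuous_snd.comp (continuous_subtype_val.comp continuous_subtype_val)
  · rcases b with i | a <;> rfl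
  · refine Continuous.subtype_mk (Continuous.subtype_mk (Continuous.prodMk ?_ ?_) _) _
    · refine continuous_pi ?_
      rintro (i | a | u)
      · exact continuous_const
      · exact continuous_const
      · exact continuous_fst.comp continuous_subtype_val
    · exact continuous_snd.comp continuous_subtype_val
  · intro y
    refine Subtype.ext (Subtype.ext (Prod.ext (funext ?_) rfl))
    rintro (i | a | u)
    · exact (hval y (Sum.inl i)).symm
    · exact (hval y (Sum.inr a)).symm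
    · rfl

private theorem asph_KT {n l m : ℕ} (hm : m ≠ 0) : Asph (GT m (ST n l)) := by
  intro e he f hf
  have b0 : ConfT (Fin n ⊕ Fin l) := forgetT m (ST n l) jzd neT_jzd (f fun _ => 0)
  exact ext_total (forget_loctrivT hm (ST n l) jzd neT_jzd b0)
    (asph_confT (Fin n ⊕ Fin l) e he) (fib_zd hm b0 e he) f hf

theorem asph_XT {n l m : ℕ} (hm : m ≠ 0) {d : Fin l → ℂ} (hd : ∀ a b, a ≠ b → g (d a - d b) ≠ 0)
    (hd0 : ∀ a, g (d a) ≠ 0) : Asph (XT n m d) := by
  have hb0 : ∀ i j : Fin l ⊕ Unit, i ≠ j →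
      g (Sum.elim d (fun _ : Unit => (0 : ℂ)) i - Sum.elim d (fun _ : Unit => (0 : ℂ)) j) ≠ 0 := by
    rintro (a | u) (b | v) hab
    · exact hd a b fun h => hab (congrArg Sum.inl h)
    · show g (d a - 0) ≠ 0
      rw [sub_zero]
      exact hd0 a
    · show g (0 - d b) ≠ 0
      rw [zero_sub, g_neg]
      exact neg_ne_zero.2 (hd0 b)
    · exact absurd rfl hab
  let b0 : ConfT (Fin l ⊕ Unit) := ⟨Sum.elim d (fun _ : Unit => (0 : ℂ)), hb0⟩
  have hp := forget_loctrivT hm (ST n l) (fun b => Sum.inr b) neT_inr b0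
  have hval : ∀ y : (forgetT m (ST n l) (fun b => Sum.inr b) neT_inr ⁻¹' {b0}), ∀ b,
      y.1.1.1 (Sum.inr b) = b0.1 b := fun y b => congrFun (congrArg Subtype.val y.2) b
  have hS : ∀ y : (forgetT m (ST n l) (fun b => Sum.inr b) neT_inr ⁻¹' {b0}),
      ((fun i => y.1.1.1 (Sum.inl i), y.1.1.2) : (Fin n → ℂ) × (Fin n → ℂ)) ∈ XT n m d := by
    intro y
    refine ⟨fun i => ?_, fun i j hij => ?_, fun i a => ?_⟩
    · have h' : y.1.1.2 i ^ m = g (y.1.1.1 (Sum.inl i) - y.1.1.1 (Sum.inr (Sum.inr ()))) :=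
        y.1.2.1 i
      have e : y.1.1.1 (Sum.inr (Sum.inr ())) = 0 := hval y (Sum.inr ())
      rw [e, sub_zero] at h'
      exact h'
    · refine y.1.2.2 (Sum.inl i) (Sum.inl j) ⟨fun h => hij (Sum.inl_injective h), ?_⟩
      rintro ⟨i, ⟨-, h1⟩ | ⟨-, h1⟩⟩ <;> cases h1
    · have e : y.1.1.1 (Sum.inr (Sum.inl a)) = d a := hval y (Sum.inl a)
      have h : g (y.1.1.1 (Sum.inl i) - y.1.1.1 (Sum.inr (Sum.inl a))) ≠ 0 := by
        refine y.1.2.2 _ _ ⟨(fun h => by cases h), ?_⟩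
        rintro ⟨i, ⟨-, h1⟩ | ⟨h1, -⟩⟩ <;> cases h1
      rw [e] at h
      exact h
  have hG : ∀ z : XT n m d,
      ((Sum.elim z.1.1 (Sum.elim d (fun _ : Unit => (0 : ℂ))), z.1.2) :
        (Fin n ⊕ Fin l ⊕ Unit → ℂ) × (Fin n → ℂ)) ∈ GT m (ST n l) := by
    intro z
    refine ⟨fun i => ?_, ?_⟩
    · show z.1.2 i ^ m = g (z.1.1 i - 0)
      rw [sub_zero]
      exact z.2.1 i
    · rintro (i | a) (j | b) ⟨hab, hnc⟩
      · exact z.2.2.1 i j fun h => hab (congrArg Sum.inl h)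
      · rcases b with b | u
        · exact z.2.2.2 i b
        · exact absurd ⟨i, Or.inl ⟨rfl, rfl⟩⟩ hnc
      · rcases a with a | u
        · exact g_swap (z.2.2.2 j a)
        · exact absurd ⟨j, Or.inr ⟨rfl, rfl⟩⟩ hnc
      · exact hb0 a b fun h => hab (congrArg Sum.inr h)
  intro e he
  refine ext_retract (X := (forgetT m (ST n l) (fun b => Sum.inr b) neT_inr ⁻¹' {b0}))
    (Y := XT n m d) (fun z => ⟨⟨_, hG z⟩, Subtype.ext (funext fun b => rfl)⟩) ?_
    (fun y => ⟨_, hS y⟩) ?_ (fun z => Subtype.ext rfl)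
    (ext_fibre hp b0 (asph_confT (Fin l ⊕ Unit) (e + 1) (by omega)) (asph_KT hm e he))
  · refine Continuous.subtype_mk (Continuous.subtype_mk (Continuous.prodMk ?_ ?_) _) _
    · refine continuous_pi ?_
      rintro (i | b)
      · exact (continuous_apply i).comp (continuous_fst.comp continuous_subtype_val)
      · exact continuous_const
    · exact continuous_snd.comp continuous_subtype_val
  · refine Continuous.subtype_mk (Continuous.prodMk ?_ ?_) _
    · exact continuous_pi fun i => (continuous_apply _).comp (continuous_fst.comp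
        (continuous_subtype_val.comp continuous_subtype_val))
    · exact continuous_snd.comp (continuous_subtype_val.comp continuous_subtype_val)

end TOR4
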