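import Pool.Agent.TOR4.MainT
import Pool.Agent.ASP87.ExtPi
import Pool.Agent.ASP87.ExtBasic

/-!
# TOR4/PBT: the curve over the torus with one cone point, its group, `PB_n`
-/

namespace TOR4

open Complex Topology Set ASP87

/-- `M̃ = {(z, s) : s^m = sin(π Re z) + i sin(π Im z), z ≠ d_a mod ℤ[i]}` -/
def Mt (m : ℕ) {l : ℕ} (d : Fin l → ℂ) : Type :=
  {p : ℂ × ℂ // p.2 ^ m = ((Real.sin (Real.pi * p.1.re) : ℝ) : ℂ) + ((Real.sin (Real.pi * p.1.im) : ℝ) : ℂ) * I ∧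
    ∀ a (u v : ℤ), p.1 ≠ d a + u + v * I}

noncomputable instance (m : ℕ) {l : ℕ} (d : Fin l → ℂ) : TopologicalSpace (Mt m d) := instTopologicalSpaceSubtype

/-- `H` = the group of all homeomorphisms of `M̃` over the torus `ℂ/ℤ[i]` -/
def HT (m : ℕ) {l : ℕ} (d : Fin l → ℂ) : Subgroup (Mt m d ≃ₜ Mt m d) where
  carrier := {h | ∀ p, ∃ u v : ℤ, (h p).1.1 = p.1.1 + u + v * I}
  mul_mem' := by
    intro h k hh hk p
    obtain ⟨u, v, h1⟩ := hh (k p)
    obtain ⟨u', v', h2⟩ := hk p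
    refine ⟨u + u', v + v', ?_⟩
    show (h (k p)).1.1 = _
    rw [h1, h2]
    push_cast
    ring
  one_mem' := fun p => ⟨0, 0, by simp⟩
  inv_mem' := by
    intro h hh p
    obtain ⟨u, v, h1⟩ := hh (h.symm p)
    refine ⟨-u, -v, ?_⟩
    show (h.symm p).1.1 = _
    rw [Homeomorph.apply_symm_apply] at h1
    rw [h1]
    push_cast
    ring

/-- `PB_n(M̃, H)`: the tuples of points of `M̃` in pairwise different orbits of `H` -/
def PBt (n m : ℕ) {l : ℕ} (d : Fin l → ℂ) : Type :=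
  {x : Fin n → Mt m d // ∀ i j, i ≠ j → ∀ h ∈ HT m d, h (x i) ≠ x j}

noncomputable instance (n m : ℕ) {l : ℕ} (d : Fin l → ℂ) : TopologicalSpace (PBt n m d) := instTopologicalSpaceSubtype

private theorem pbt_pt (u v : ℤ) : pt (u, v) = (u : ℂ) + v * I := rfl

/-- the map `(z, s) ↦ (z + w, e σ(s))` of the curve -/
private noncomputable def pbtMap {m : ℕ} {l : ℕ} {d : Fin l → ℂ} (σ : ℂ →+* ℂ) (e w ε : ℂ)
    (he : e ^ m = ε) (hw : ∃ u v : ℤ, w = u + v * I) (hg : ∀ z, g (z + w) = ε * σ (g z))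
    (p : Mt m d) : Mt m d :=
  ⟨(p.1.1 + w, e * σ p.1.2), by
    constructor
    · show (e * σ p.1.2) ^ m = g (p.1.1 + w)
      have h1 : p.1.2 ^ m = g p.1.1 := p.2.1
      rw [hg, mul_pow, he, ← map_pow, h1]
    · obtain ⟨a, b, hab⟩ := hw
      intro c u v h
      refine p.2.2 c (u - a) (v - b) ?_
      have h' : p.1.1 + w = d c + u + v * I := h
      rw [hab] at h'
      push_cast
      linear_combination h'⟩

private theorem pbtMap_cont {m : ℕ} {l : ℕ} {d : Fin l → ℂ} {σ : ℂ →+* ℂ} (hσ : Continuous σ)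
    {e w ε : ℂ} (he : e ^ m = ε) (hw : ∃ u v : ℤ, w = u + v * I)
    (hg : ∀ z, g (z + w) = ε * σ (g z)) :
    Continuous (pbtMap (d := d) σ e w ε he hw hg) := by
  refine Continuous.subtype_mk ?_ _
  have h1 : Continuous fun p : Mt m d => p.1.1 := continuous_fst.comp continuous_subtype_val
  have h2 : Continuous fun p : Mt m d => p.1.2 := continuous_snd.comp continuous_subtype_val
  exact (h1.add continuous_const).prodMk (continuous_const.mul (hσ.comp h2))

/-- a homeomorphism of the curve over a translation -/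
private theorem pbt_exists {m : ℕ} {l : ℕ} {d : Fin l → ℂ} {σ : ℂ →+* ℂ} (hσ : Continuous σ)
    (hσ2 : ∀ s, σ (σ s) = s) {e w ε : ℂ} (he : e ^ m = ε) (hw : ∃ u v : ℤ, w = u + v * I)
    (hg : ∀ z, g (z + w) = ε * σ (g z)) (hε : ε * ε = 1) (hε' : σ ε = ε) (he0 : e ≠ 0) :
    ∃ h ∈ HT m d, ∀ p : Mt m d, (h p).1 = (p.1.1 + w, e * σ p.1.2) := by
  have he' : (σ e)⁻¹ ^ m = ε := by
    rw [inv_pow, ← map_pow, he, hε']
    exact inv_eq_of_mul_eq_one_left hε
  have hw' : ∃ u v : ℤ, -w = u + v * I := by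
    obtain ⟨u, v, h⟩ := hw
    refine ⟨-u, -v, ?_⟩
    rw [h]
    push_cast
    ring
  have hg' : ∀ z, g (z + -w) = ε * σ (g z) := by
    intro z
    have h1 := hg (z + -w)
    rw [neg_add_cancel_right] at h1
    rw [h1, map_mul, hσ2, hε', ← mul_assoc, hε, one_mul]
  have hse : σ e ≠ 0 := by
    rw [Ne, map_eq_zero]
    exact he0
  refine ⟨⟨⟨pbtMap σ e w ε he hw hg, pbtMap σ (σ e)⁻¹ (-w) ε he' hw' hg', ?_, ?_⟩,
    pbtMap_cont hσ he hw hg, pbtMap_cont hσ he' hw' hg'⟩, ?_, ?_⟩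
  · intro p
    apply Subtype.ext
    apply Prod.ext
    · show p.1.1 + w + -w = p.1.1
      ring
    · show (σ e)⁻¹ * σ (e * σ p.1.2) = p.1.2
      rw [map_mul, hσ2, inv_mul_cancel_left₀ hse]
  · intro p
    apply Subtype.ext
    apply Prod.ext
    · show p.1.1 + -w + w = p.1.1
      ring
    · show e * σ ((σ e)⁻¹ * σ p.1.2) = p.1.2
      rw [map_mul, hσ2, map_inv₀, hσ2, mul_inv_cancel_left₀ he0]
  · intro p
    obtain ⟨u, v, h⟩ := hw
    refine ⟨u, v, ?_⟩
    show p.1.1 + w = _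
    rw [h]
    ring
  · intro p
    rfl

private theorem pbt_sin (x : ℝ) (a : ℤ) :
    Real.sin (Real.pi * (x + a)) = (-1) ^ a * Real.sin (Real.pi * x) := by
  have h1 : Real.pi * (x + a) = Real.pi * x + a * Real.pi := by ring
  rw [h1, Real.sin_add_int_mul_pi]

private theorem pbt_g_even {u v : ℤ} (h : Even (u + v)) (z : ℂ) :
    g (z + (u + v * I)) = (-1) ^ u * g z := by
  have h0 : ((u : ℂ) + v * I) = pt (u, v) := rfl
  have h2 : ((-1 : ℝ)) ^ v = (-1) ^ u := by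
    rcases Int.even_or_odd u with hu | hu
    · have hv : Even v := (Int.even_add.1 h).1 hu
      rw [hu.neg_one_zpow, hv.neg_one_zpow]
    · have hv : Odd v := by
        rw [← Int.not_even_iff_odd] at hu ⊢
        exact fun hv => hu ((Int.even_add.1 h).2 hv)
      rw [hu.neg_one_zpow, hv.neg_one_zpow]
  have h3 : ((-1 : ℂ)) ^ u = (((-1 : ℝ) ^ u : ℝ) : ℂ) := by
    push_cast
    rfl
  rw [h0, h3]
  apply Complex.ext
  · rw [g_re, add_re, pt_re, pbt_sin, re_ofReal_mul, g_re]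
  · rw [g_im, add_im, pt_im, pbt_sin, im_ofReal_mul, g_im, h2]

private theorem pbt_g_odd {u v : ℤ} (h : ¬ Even (u + v)) (z : ℂ) :
    g (z + (u + v * I)) = (-1) ^ u * (starRingEnd ℂ) (g z) := by
  have h0 : ((u : ℂ) + v * I) = pt (u, v) := rfl
  have h2 : ((-1 : ℝ)) ^ v = - (-1) ^ u := by
    rcases Int.even_or_odd u with hu | hu
    · have hv : Odd v := by
        rw [← Int.not_even_iff_odd]
        exact fun hv => h (Int.even_add.2 ⟨fun _ => hv, fun _ => hu⟩)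
      rw [hu.neg_one_zpow, hv.neg_one_zpow]
    · have hv : Even v := by
        by_contra hv
        rw [Int.not_even_iff_odd] at hv
        exact h (hu.add_odd hv)
      rw [hu.neg_one_zpow, hv.neg_one_zpow]
      norm_num
  have h3 : ((-1 : ℂ)) ^ u = (((-1 : ℝ) ^ u : ℝ) : ℂ) := by
    push_cast
    rfl
  rw [h0, h3]
  apply Complex.ext
  · rw [g_re, add_re, pt_re, pbt_sin, re_ofReal_mul, conj_re, g_re]
  · rw [g_im, add_im, pt_im, pbt_sin, im_ofReal_mul, conj_im, g_im, h2]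
    ring

/-- every translation by a lattice vector has the required form -/
private theorem pbt_trans (u v : ℤ) : ∃ (σ : ℂ →+* ℂ) (ε : ℂ), Continuous σ ∧
    (∀ s, σ (σ s) = s) ∧ (∀ z, g (z + (u + v * I)) = ε * σ (g z)) ∧ ε * ε = 1 ∧ σ ε = ε := by
  have hε : ((-1 : ℂ) ^ u) * (-1) ^ u = 1 := by
    rcases Int.even_or_odd u with hu | hu
    · rw [hu.neg_one_zpow, one_mul]
    · rw [hu.neg_one_zpow]
      norm_num
  by_cases h : Even (u + v)
  · exact ⟨RingHom.id ℂ, (-1) ^ u, continuous_id, fun _ => rfl, fun z => pbt_g_even h z, hε, rfl⟩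
  · refine ⟨starRingEnd ℂ, (-1) ^ u, Complex.continuous_conj, fun s => Complex.conj_conj s,
      fun z => pbt_g_odd h z, hε, ?_⟩
    rw [map_zpow₀, map_neg, map_one]

/-- the orbits of `H` are the fibres of `M̃ → ℂ/ℤ[i]` -/
theorem orbitT {m : ℕ} (hm : m ≠ 0) {l : ℕ} {d : Fin l → ℂ} (p q : Mt m d) :
    (∃ h ∈ HT m d, h p = q) ↔ ∃ u v : ℤ, q.1.1 = p.1.1 + u + v * I := by
  constructor
  · rintro ⟨h, hh, rfl⟩
    exact hh p
  · rintro ⟨u, v, hq⟩
    obtain ⟨σ, ε, hσ, hσ2, hg, hε, hε'⟩ := pbt_trans u v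
    have hq' : q.1.1 = p.1.1 + (u + v * I) := by rw [hq, add_assoc]
    have hp1 : p.1.2 ^ m = g p.1.1 := p.2.1
    have hq1 : q.1.2 ^ m = g q.1.1 := q.2.1
    have hgq : g q.1.1 = ε * σ (g p.1.1) := by rw [hq', hg]
    have hε0 : ε ≠ 0 := left_ne_zero_of_mul_eq_one hε
    have key : ∃ e : ℂ, e ^ m = ε ∧ e * σ p.1.2 = q.1.2 := by
      by_cases hp : p.1.2 = 0
      · obtain ⟨e, he⟩ := IsAlgClosed.exists_pow_nat_eq ε (Nat.pos_of_ne_zero hm)
        refine ⟨e, he, ?_⟩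
        have h1 : g p.1.1 = 0 := by rw [← hp1, hp, zero_pow hm]
        have h2 : q.1.2 ^ m = 0 := by rw [hq1, hgq, h1, map_zero, mul_zero]
        rw [hp, map_zero, mul_zero]
        exact (pow_eq_zero_iff hm).1 h2 |>.symm
      · have h0 : σ p.1.2 ≠ 0 := by
          rw [Ne, map_eq_zero]
          exact hp
        refine ⟨q.1.2 / σ p.1.2, ?_, div_mul_cancel₀ _ h0⟩
        rw [div_pow, hq1, hgq, ← map_pow, hp1, mul_div_assoc, div_self, mul_one]
        rw [Ne, map_eq_zero, ← hp1]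
        exact pow_ne_zero m hp
    obtain ⟨e, he, heq⟩ := key
    have he0 : e ≠ 0 := by
      rintro rfl
      rw [zero_pow hm] at he
      exact hε0 he.symm
    obtain ⟨h, hh, hval⟩ := pbt_exists (d := d) hσ hσ2 he ⟨u, v, rfl⟩ hg hε hε' he0
    refine ⟨h, hh, ?_⟩
    apply Subtype.ext
    rw [hval]
    exact Prod.ext hq'.symm heq

theorem PBt_homeo {n m l : ℕ} (hm : m ≠ 0) (d : Fin l → ℂ) : Nonempty (PBt n m d ≃ₜ XT n m d) := by
  have hf : ∀ x : PBt n m d, ((fun i => (x.1 i).1.1, fun i => (x.1 i).1.2) :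
      (Fin n → ℂ) × (Fin n → ℂ)) ∈ XT n m d := by
    intro x
    refine ⟨fun i => (x.1 i).2.1, ?_, ?_⟩
    · intro i j hij h0
      obtain ⟨q, hq⟩ := g_zero.1 h0
      obtain ⟨h, hh, hx⟩ := (orbitT hm (x.1 j) (x.1 i)).2 ⟨q.1, q.2, by
        have h1 : (x.1 i).1.1 - (x.1 j).1.1 = (q.1 : ℂ) + q.2 * I := hq
        linear_combination h1⟩
      exact x.2 j i hij.symm h hh hx
    · intro i a h0
      obtain ⟨q, hq⟩ := g_zero.1 h0
      refine (x.1 i).2.2 a q.1 q.2 ?_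
      have h1 : (x.1 i).1.1 - d a = (q.1 : ℂ) + q.2 * I := hq
      linear_combination h1
  have hk : ∀ (y : XT n m d) (i : Fin n), (y.1.2 i) ^ m =
      ((Real.sin (Real.pi * (y.1.1 i).re) : ℝ) : ℂ) +
        ((Real.sin (Real.pi * (y.1.1 i).im) : ℝ) : ℂ) * I ∧
      ∀ a (u v : ℤ), y.1.1 i ≠ d a + u + v * I := by
    intro y i
    refine ⟨y.2.1 i, ?_⟩
    intro a u v h
    refine y.2.2.2 i a (g_zero.2 ⟨(u, v), ?_⟩)
    rw [pbt_pt]
    linear_combination h
  have hk2 : ∀ y : XT n m d, ∀ i j, i ≠ j → ∀ h ∈ HT m d,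
      h (⟨(y.1.1 i, y.1.2 i), hk y i⟩ : Mt m d) ≠ (⟨(y.1.1 j, y.1.2 j), hk y j⟩ : Mt m d) := by
    intro y i j hij h hh hy
    obtain ⟨u, v, huv⟩ := (orbitT hm _ _).1 ⟨h, hh, hy⟩
    refine y.2.2.1 j i hij.symm (g_zero.2 ⟨(u, v), ?_⟩)
    have h1 : y.1.1 j = y.1.1 i + u + v * I := huv
    rw [pbt_pt]
    linear_combination h1
  refine ⟨⟨⟨fun x => ⟨_, hf x⟩, fun y => ⟨fun i => ⟨(y.1.1 i, y.1.2 i), hk y i⟩, hk2 y⟩, ?_, ?_⟩,
    ?_, ?_⟩⟩
  · intro x
    rfl
  · intro y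
    rfl
  · refine Continuous.subtype_mk ?_ _
    refine (continuous_pi fun i => ?_).prodMk (continuous_pi fun i => ?_)
    · exact continuous_fst.comp (continuous_subtype_val.comp
        ((continuous_apply i).comp continuous_subtype_val))
    · exact continuous_snd.comp (continuous_subtype_val.comp
        ((continuous_apply i).comp continuous_subtype_val))
  · refine Continuous.subtype_mk (continuous_pi fun i => ?_) _
    refine Continuous.subtype_mk ?_ _
    exact ((continuous_apply i).comp (continuous_fst.comp continuous_subtype_val)).prodMk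
      ((continuous_apply i).comp (continuous_snd.comp continuous_subtype_val))

theorem asph_PBt {n m l : ℕ} (hm : m ≠ 0) {d : Fin l → ℂ}
    (hd : ∀ a b (u v : ℤ), d a = d b + u + v * I → a = b) (hd0 : ∀ a (u v : ℤ), d a ≠ u + v * I) :
    Asph (PBt n m d) := by
  obtain ⟨e⟩ := PBt_homeo (n := n) hm d
  have h : Asph (XT n m d) := by
    refine asph_XT hm ?_ ?_
    · intro a b hab h0
      obtain ⟨q, hq⟩ := g_zero.1 h0
      refine hab (hd a b q.1 q.2 ?_)
      have h1 : d a - d b = (q.1 : ℂ) + q.2 * I := hq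
      linear_combination h1
    · intro a h0
      obtain ⟨q, hq⟩ := g_zero.1 h0
      exact hd0 a q.1 q.2 hq
  intro r hr
  exact ext_homeo e.symm (h r hr)

end TOR4
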