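import Pool.Agent.TOR4.ProdCov
import Pool.Agent.TOR4.Fact
import Pool.Agent.TOR4.DiscY
import Pool.Agent.ASP87.LogCov

/-!
# TOR4/SFAsph: the surfaces `SF m z d` are aspherical

Exhaustion by the discs `‖c‖ < R`. Over a disc: adding the logarithms of `h_i (z_i - c)` (`exists_fact`) and of
`c - p` at the punctures `p` is a covering (`logCov`); separating the roots is a covering (`prodCov`); the result is the
space `DY` with the logarithms of `h_i (z_i - c)` added, a covering of `DY`, and `DY` is aspherical.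
-/

namespace TOR4

open scoped unitInterval
open Complex Topology Set ASP87

private theorem pt_inj {q q' : ℤ × ℤ} (h : pt q = pt q') : q = q' := by
  have h1 := congrArg re h
  have h2 := congrArg im h
  rw [pt_re, pt_re] at h1
  rw [pt_im, pt_im] at h2
  exact Prod.ext (by exact_mod_cast h1) (by exact_mod_cast h2)

private theorem pt_sub (q q' : ℤ × ℤ) : pt (q - q') = pt q - pt q' := by
  unfold pt
  push_cast [Prod.fst_sub, Prod.snd_sub]
  ring

private theorem pt_neg (q : ℤ × ℤ) : pt (-q) = -pt q := by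
  unfold pt
  push_cast [Prod.fst_neg, Prod.snd_neg]
  ring

private theorem finite_pt (w : ℂ) (R : ℝ) : {q : ℤ × ℤ | ‖w - pt q‖ < R}.Finite := by
  refine ((Set.finite_Icc (⌊w.re - R⌋) (⌈w.re + R⌉)).prod
    (Set.finite_Icc (⌊w.im - R⌋) ⌈w.im + R⌉)).subset ?_
  rintro ⟨a, b⟩ hq
  have h0 : ‖w - pt (a, b)‖ < R := hq
  have h1 := (Complex.abs_re_le_norm (w - pt (a, b))).trans_lt h0
  have h2 := (Complex.abs_im_le_norm (w - pt (a, b))).trans_lt h0
  rw [sub_re, pt_re, abs_lt] at h1
  rw [sub_im, pt_im, abs_lt] at h2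
  refine ⟨⟨?_, ?_⟩, ⟨?_, ?_⟩⟩
  · exact_mod_cast (Int.floor_le _).trans (by linarith : w.re - R ≤ ((a : ℤ) : ℝ))
  · exact_mod_cast (by linarith : ((a : ℤ) : ℝ) ≤ w.re + R).trans (Int.le_ceil _)
  · exact_mod_cast (Int.floor_le _).trans (by linarith : w.im - R ≤ ((b : ℤ) : ℝ))
  · exact_mod_cast (by linarith : ((b : ℤ) : ℝ) ≤ w.im + R).trans (Int.le_ceil _)

/-- exhaustion -/
private theorem ext_exh {X : Type*} [TopologicalSpace X] {N : ℕ} (hN : N ≠ 0) (ρ : X → ℝ)
    (hρ : Continuous ρ) (h : ∀ R0 : ℝ, ∃ R, R0 < R ∧ Ext N {x : X | ρ x < R}) : Ext N X := by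
  intro f hf
  have hK : IsCompact (Cube.boundary (Fin N)) := by
    refine IsClosed.isCompact ?_
    have h1 : Cube.boundary (Fin N) = ⋃ i : Fin N, ({y | y i = 0} ∪ {y | y i = 1}) := by
      ext y
      rw [mem_iUnion]
      rfl
    rw [h1]
    refine isClosed_iUnion_of_finite (fun i => ?_)
    exact (isClosed_eq (continuous_apply i) continuous_const).union
      (isClosed_eq (continuous_apply i) continuous_const)
  have h0 : (fun _ => 0 : Fin N → I) ∈ Cube.boundary (Fin N) :=
    ⟨⟨0, Nat.pos_of_ne_zero hN⟩, Or.inl rfl⟩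
  obtain ⟨R0, hR0⟩ := (hK.bddAbove_image (hρ.comp_continuousOn hf))
  obtain ⟨R, hR, hE⟩ := h R0
  have hfs : ∀ x ∈ Cube.boundary (Fin N), f x ∈ {x : X | ρ x < R} := by
    intro x hx
    exact (hR0 ⟨x, hx, rfl⟩).trans_lt hR
  obtain ⟨G, hG, -, hGf⟩ := ext_set ⟨_, hfs _ h0⟩ hE f hf hfs
  exact ⟨G, hG, hGf⟩

variable {ι κ : Type} [Fintype ι] [Fintype κ] {m : ℕ}

/-- one disc -/
private theorem ext_disc (hm : m ≠ 0) {z : ι → ℂ} {d : κ → ℂ}
    (hz : ∀ i j, i ≠ j → g (z i - z j) ≠ 0) (hd : ∀ a b, a ≠ b → g (d a - d b) ≠ 0)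
    (hzd : ∀ i a, g (z i - d a) ≠ 0) {R : ℝ} (hR : 0 < R) (hzR : ∀ i, ‖z i‖ < R) {N : ℕ}
    (hN : 3 ≤ N) : Ext N {y : SF m z d | ‖y.1.1‖ < R} := by
  classical
  -- the zeros in the disc
  let P : Type := {p : ι × (ℤ × ℤ) // ‖z p.1 - pt p.2‖ < R}
  let E : Type := {p : κ × (ℤ × ℤ) // ‖d p.1 + pt p.2‖ < R}
  have hPf : Finite P := by
    have h1 : {p : ι × (ℤ × ℤ) | ‖z p.1 - pt p.2‖ < R}.Finite := by
      have h2 : {p : ι × (ℤ × ℤ) | ‖z p.1 - pt p.2‖ < R} =
          ⋃ i : ι, (fun q => (i, q)) '' {q | ‖z i - pt q‖ < R} := by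
        ext ⟨i, q⟩
        simp
      rw [h2]
      exact Set.finite_iUnion fun i => (finite_pt (z i) R).image _
    exact h1.to_subtype
  have hEf : Finite E := by
    have h1 : {p : κ × (ℤ × ℤ) | ‖d p.1 + pt p.2‖ < R}.Finite := by
      have h2 : {p : κ × (ℤ × ℤ) | ‖d p.1 + pt p.2‖ < R} ⊆
          ⋃ i : κ, (fun q => (i, -q)) '' {q | ‖d i - pt q‖ < R} := by
        rintro ⟨i, q⟩ hq
        refine mem_iUnion.2 ⟨i, ⟨-q, ?_, by simp⟩⟩
        show ‖d i - pt (-q)‖ < R
        rw [pt_neg, sub_neg_eq_add]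
        exact hq
      exact (Set.finite_iUnion fun i => (finite_pt (d i) R).image _).subset h2
    exact h1.to_subtype
  cases nonempty_fintype P
  cases nonempty_fintype E
  let Q : ι → Finset (ℤ × ℤ) := fun i => (finite_pt (z i) R).toFinset
  have hQ : ∀ i q, q ∈ Q i ↔ ‖z i - pt q‖ < R := fun i q => by
    simp [Q]
  choose h hhc hhg hh0 using fun i => exists_fact (Q i)
  have hh0' : ∀ i c, ‖c‖ < R → h i (z i - c) ≠ 0 := by
    intro i c hc
    refine hh0 i _ fun q hq he => hq ?_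
    rw [hQ]
    have h1 : z i - pt q = c := by rw [← he]; ring
    rw [h1]
    exact hc
  have hprod : ∀ i (F : ℤ × ℤ → ℂ), ∏ p ∈ Finset.univ.filter (fun p : P => p.1.1 = i), F p.1.2 =
      ∏ q ∈ Q i, F q := by
    intro i F
    refine Finset.prod_bij (fun p _ => p.1.2) ?_ ?_ ?_ (fun _ _ => rfl)
    · rintro ⟨⟨j, q⟩, hp⟩ hj
      have hj' : j = i := (Finset.mem_filter.1 hj).2
      subst hj'
      exact (hQ _ _).2 hp
    · rintro ⟨⟨j, q⟩, hp⟩ hj ⟨⟨j', q'⟩, hp'⟩ hj' he
      have h1 : j = i := (Finset.mem_filter.1 hj).2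
      have h2 : j' = i := (Finset.mem_filter.1 hj').2
      have h3 : q = q' := he
      subst h1 h2 h3
      rfl
    · intro q hq
      exact ⟨⟨(i, q), (hQ _ _).1 hq⟩, Finset.mem_filter.2 ⟨Finset.mem_univ _, rfl⟩, rfl⟩
  -- the space `DY`
  let b : P ⊕ E → ℂ := Sum.elim (fun p => z p.1.1 - pt p.1.2) (fun p => d p.1.1 + pt p.1.2)
  let w : P ⊕ E → ℕ := Sum.elim (fun _ => m) (fun _ => 0)
  have hb : Function.Injective b := by
    rintro (⟨⟨i, q⟩, hp⟩ | ⟨⟨i, q⟩, hp⟩) (⟨⟨i', q'⟩, hp'⟩ | ⟨⟨i', q'⟩, hp'⟩) he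
    · have he' : z i - pt q = z i' - pt q' := he
      have h1 : i = i' := by
        by_contra hne
        refine hz _ _ hne (g_zero.2 ⟨q - q', ?_⟩)
        rw [pt_sub]
        linear_combination he'
      subst h1
      have h2 : q = q' := pt_inj (by linear_combination -he')
      subst h2
      rfl
    · have he' : z i - pt q = d i' + pt q' := he
      exfalso
      refine hzd i i' (g_zero.2 ⟨q + q', ?_⟩)
      have h1 : pt (q + q') = pt q + pt q' := by
        rw [← sub_neg_eq_add, pt_sub, pt_neg, sub_neg_eq_add]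
      rw [h1]
      linear_combination he'
    · have he' : d i + pt q = z i' - pt q' := he
      exfalso
      refine hzd i' i (g_zero.2 ⟨q + q', ?_⟩)
      have h1 : pt (q + q') = pt q + pt q' := by
        rw [← sub_neg_eq_add, pt_sub, pt_neg, sub_neg_eq_add]
      rw [h1]
      linear_combination -he'
    · have he' : d i + pt q = d i' + pt q' := he
      have h1 : i = i' := by
        by_contra hne
        refine hd _ _ hne (g_zero.2 ⟨q' - q, ?_⟩)
        rw [pt_sub]
        linear_combination he'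
      subst h1
      have h2 : q = q' := pt_inj (by linear_combination he')
      subst h2
      rfl
  have hbR : ∀ p, ‖b p‖ < R := by
    rintro (p | p)
    · exact p.2
    · exact p.2
  have h1 : Ext N (DY R b w) := asph_DY hR hb hbR w N hN
  -- logarithms of `h i (z i - c)` added
  let fD : ι → DY R b w → ℂ := fun i y => h i (z i - y.1.1)
  have hfD : ∀ i, Continuous (fD i) := fun i =>
    (hhc i).comp (continuous_const.sub (continuous_fst.comp continuous_subtype_val))
  have hfD0 : ∀ i y, fD i y ≠ 0 := fun i y => hh0' i _ y.2.1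
  have h2 : Ext N (LogE fD) := ext_cover (logCov fD hfD hfD0).1 (by omega) h1
  -- the base space with logarithms
  let X1 : Type := {x : ℂ × (ι → ℂ) × (E → ℂ) // ‖x.1‖ < R ∧ (∀ i, exp (x.2.1 i) = h i (z i - x.1)) ∧
    ∀ p : E, exp (x.2.2 p) = x.1 - (d p.1.1 + pt p.1.2)}
  have hX1c : Continuous (fun x : X1 => x.1.1) := continuous_fst.comp continuous_subtype_val
  have hX1l : ∀ i, Continuous (fun x : X1 => x.1.2.1 i) := fun i =>
    (continuous_apply i).comp (continuous_fst.comp (continuous_snd.comp continuous_subtype_val))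
  have hX1e : ∀ i, Continuous (fun x : X1 => x.1.2.2 i) := fun i =>
    (continuous_apply i).comp (continuous_snd.comp (continuous_snd.comp continuous_subtype_val))
  let a : P → X1 → ℂ := fun p x => cj p.1.2 (x.1.1 - (z p.1.1 - pt p.1.2))
  have ha : ∀ p, Continuous (a p) := fun p => (cj_cont _).comp (hX1c.sub continuous_const)
  let v : ι → X1 → ℂ := fun i x => exp (x.1.2.1 i / m)
  have hv : ∀ i, Continuous (v i) := fun i => continuous_exp.comp ((hX1l i).div_const _)
  have hv0 : ∀ i x, v i x ≠ 0 := fun i x => exp_ne_zero _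
  have hmC : (m : ℂ) ≠ 0 := by exact_mod_cast hm
  have hvm : ∀ i x, v i x ^ m = h i (z i - x.1.1) := by
    intro i x
    rw [← x.2.2.1 i, ← exp_nat_mul, mul_div_cancel₀ _ hmC]
  have h3 : Ext N (PT m a) := by
    refine ext_retract (X := LogE fD) (Y := PT m a)
      (fun y => ⟨(⟨(y.1.1.1.1, Sum.elim (fun p => cj p.1.2 (y.1.2 p)) (fun p => y.1.1.1.2.2 p)), ?_⟩,
        fun i => y.1.1.1.2.1 i), fun i => y.1.1.2.2.1 i⟩) ?_
      (fun y => ⟨(⟨(y.1.1.1.1, y.1.2, fun p => y.1.1.1.2 (Sum.inr p)), y.1.1.2.1, fun i => y.2 i, ?_⟩,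
        fun p => cj p.1.2 (y.1.1.1.2 (Sum.inl p))), ?_⟩) ?_ ?_ h2
    · refine ⟨y.1.1.2.1, ?_⟩
      rintro (p | p)
      · show bw m (cj p.1.2 (y.1.2 p)) = _
        rw [bw, if_neg hm, ← cj_pow, y.2 p, cj_cj]
        rfl
      · show bw 0 (y.1.1.1.2.2 p) = _
        rw [bw, if_pos rfl]
        exact y.1.1.2.2.2 p
    · refine Continuous.subtype_mk (Continuous.prodMk (Continuous.subtype_mk (Continuous.prodMk ?_ ?_) _)
        (continuous_pi fun i => ?_)) _
      · exact hX1c.comp (continuous_fst.comp continuous_subtype_val)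
      · refine continuous_pi fun p => ?_
        rcases p with p | p
        · exact (cj_cont _).comp ((continuous_apply p).comp (continuous_snd.comp continuous_subtype_val))
        · exact (hX1e p).comp (continuous_fst.comp continuous_subtype_val)
      · exact (hX1l i).comp (continuous_fst.comp continuous_subtype_val)
    · intro p
      have h4 := y.1.1.2.2 (Sum.inr p)
      have h5 : bw 0 (y.1.1.1.2 (Sum.inr p)) = y.1.1.1.1 - (d p.1.1 + pt p.1.2) := h4
      rw [bw, if_pos rfl] at h5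
      exact h5
    · intro p
      have h4 : bw m (y.1.1.1.2 (Sum.inl p)) = y.1.1.1.1 - (z p.1.1 - pt p.1.2) := y.1.1.2.2 (Sum.inl p)
      rw [bw, if_neg hm] at h4
      show cj p.1.2 (y.1.1.1.2 (Sum.inl p)) ^ m = cj p.1.2 (y.1.1.1.1 - (z p.1.1 - pt p.1.2))
      rw [← cj_pow, h4]
    · have hc0 : Continuous (fun y : LogE fD => y.1.1.1.1) :=
        continuous_fst.comp (continuous_subtype_val.comp (continuous_fst.comp continuous_subtype_val))
      have hc1 : ∀ p, Continuous (fun y : LogE fD => y.1.1.1.2 p) := fun p =>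
        (continuous_apply p).comp (continuous_snd.comp (continuous_subtype_val.comp
          (continuous_fst.comp continuous_subtype_val)))
      refine Continuous.subtype_mk (Continuous.prodMk (Continuous.subtype_mk (hc0.prodMk
        (Continuous.prodMk ?_ ?_)) _) ?_) _
      · exact continuous_snd.comp continuous_subtype_val
      · exact continuous_pi fun p => hc1 _
      · exact continuous_pi fun p => (cj_cont _).comp (hc1 _)
    · intro y
      apply Subtype.ext
      refine Prod.ext rfl (funext fun p => ?_)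
      exact cj_cj _ _
  have h4 : Ext N (PS m (fun p : P => p.1.1) a v) := by
    have hc := prodCov hm (π := fun p : P => p.1.1) (fun i => ⟨⟨(i, 0), by
      show ‖z i - pt 0‖ < R
      have : pt 0 = 0 := by simp [pt]
      rw [this, sub_zero]
      exact hzR i⟩, rfl⟩) ha (fun x p p' hne hp h5 h6 => ?_) hv hv0
    · exact ext_of_cover hc.1 hc.2 hN h3
    · have h7 := cj_eq_zero.1 h5
      have h8 := cj_eq_zero.1 h6
      have h9 : b (Sum.inl p) = b (Sum.inl p') := by
        show z p.1.1 - pt p.1.2 = z p'.1.1 - pt p'.1.2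
        linear_combination h8 - h7
      exact hne (Sum.inl.inj (hb h9))
  -- logarithms over the disc part of `SF`
  let fS : ι ⊕ E → {y : SF m z d | ‖y.1.1‖ < R} → ℂ := fun k y => match k with
    | Sum.inl i => h i (z i - y.1.1.1)
    | Sum.inr p => y.1.1.1 - (d p.1.1 + pt p.1.2)
  have hSc : Continuous (fun y : {y : SF m z d | ‖y.1.1‖ < R} => y.1.1.1) :=
    continuous_fst.comp (continuous_subtype_val.comp continuous_subtype_val)
  have hSs : Continuous (fun y : {y : SF m z d | ‖y.1.1‖ < R} => y.1.1.2) :=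
    continuous_snd.comp (continuous_subtype_val.comp continuous_subtype_val)
  have hfS : ∀ k, Continuous (fS k) := by
    rintro (i | p)
    · exact (hhc i).comp (continuous_const.sub hSc)
    · exact hSc.sub continuous_const
  have hfS0 : ∀ k y, fS k y ≠ 0 := by
    rintro (i | p) y
    · exact hh0' i _ y.2
    · show y.1.1.1 - (d p.1.1 + pt p.1.2) ≠ 0
      intro h5
      refine y.1.2.2 p.1.1 (g_zero.2 ⟨p.1.2, ?_⟩)
      linear_combination h5
  refine ext_of_cover (logCov fS hfS hfS0).1 (logCov fS hfS hfS0).2 hN ?_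
  refine ext_retract (X := PS m (fun p : P => p.1.1) a v) (Y := LogE fS)
    (fun y => ⟨(⟨(y.1.1.1.1.1, fun i => y.1.2 (Sum.inl i), fun p => y.1.2 (Sum.inr p)), y.1.1.2,
      fun i => y.2 (Sum.inl i), fun p => y.2 (Sum.inr p)⟩, y.1.1.1.1.2), fun i => ?_⟩) ?_
    (fun y => ⟨(⟨⟨(y.1.1.1.1, y.1.2), ?_, ?_⟩, y.1.1.2.1⟩,
      Sum.elim (fun i => y.1.1.1.2.1 i) (fun p => y.1.1.1.2.2 p)), ?_⟩) ?_ ?_ h4
  · rw [hvm]
    have h5 := hprod i (fun q => cj q (y.1.1.1.1.1 - (z i - pt q)))
    have h6 : ∏ p ∈ Finset.univ.filter (fun p : P => p.1.1 = i),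
        cj p.1.2 (y.1.1.1.1.1 - (z p.1.1 - pt p.1.2)) = ∏ p ∈ Finset.univ.filter (fun p : P => p.1.1 = i),
        cj p.1.2 (y.1.1.1.1.1 - (z i - pt p.1.2)) :=
      Finset.prod_congr rfl fun p hp => by rw [(Finset.mem_filter.1 hp).2]
    show y.1.1.1.1.2 i ^ m = h i (z i - y.1.1.1.1.1) * ∏ p ∈ Finset.univ.filter (fun p : P => p.1.1 = i),
        cj p.1.2 (y.1.1.1.1.1 - (z p.1.1 - pt p.1.2))
    rw [h6, h5, y.1.1.1.2.1 i, hhg i]
    congr 1
    refine Finset.prod_congr rfl fun q _ => ?_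
    congr 1
    ring
  · refine Continuous.subtype_mk (Continuous.prodMk (Continuous.subtype_mk (Continuous.prodMk ?_
      (Continuous.prodMk ?_ ?_)) _) ?_) _
    · exact hSc.comp (continuous_fst.comp continuous_subtype_val)
    · exact continuous_pi fun i => (continuous_apply _).comp (continuous_snd.comp continuous_subtype_val)
    · exact continuous_pi fun i => (continuous_apply _).comp (continuous_snd.comp continuous_subtype_val)
    · exact hSs.comp (continuous_fst.comp continuous_subtype_val)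
  · intro i
    have h5 := hprod i (fun q => cj q (y.1.1.1.1 - (z i - pt q)))
    have h6 : ∏ p ∈ Finset.univ.filter (fun p : P => p.1.1 = i),
        cj p.1.2 (y.1.1.1.1 - (z p.1.1 - pt p.1.2)) = ∏ p ∈ Finset.univ.filter (fun p : P => p.1.1 = i),
        cj p.1.2 (y.1.1.1.1 - (z i - pt p.1.2)) :=
      Finset.prod_congr rfl fun p hp => by rw [(Finset.mem_filter.1 hp).2]
    have h7 := y.2 i
    rw [hvm] at h7
    have h8 : y.1.2 i ^ m = h i (z i - y.1.1.1.1) * ∏ p ∈ Finset.univ.filter (fun p : P => p.1.1 = i),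
        cj p.1.2 (y.1.1.1.1 - (z p.1.1 - pt p.1.2)) := h7
    rw [h6, h5] at h8
    show y.1.2 i ^ m = g (z i - y.1.1.1.1)
    rw [h8, hhg i]
    congr 1
    refine Finset.prod_congr rfl fun q _ => ?_
    congr 1
    ring
  · intro k h5
    obtain ⟨q, hq⟩ := g_zero.1 h5
    have hq' : y.1.1.1.1 = d k + pt q := by
      have : y.1.1.1.1 - d k = pt q := hq
      linear_combination this
    have h6 := y.1.1.2.2.2 ⟨(k, q), by
      show ‖d k + pt q‖ < R
      rw [← hq']
      exact y.1.1.2.1⟩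
    have h7 : exp (y.1.1.1.2.2 ⟨(k, q), _⟩) = y.1.1.1.1 - (d k + pt q) := h6
    exact exp_ne_zero _ (h7.trans (sub_eq_zero.2 hq'))
  · rintro (i | p)
    · exact y.1.1.2.2.1 i
    · exact y.1.1.2.2.2 p
  · have hc0 : Continuous (fun y : PS m (fun p : P => p.1.1) a v => y.1.1) :=
      continuous_fst.comp continuous_subtype_val
    refine Continuous.subtype_mk (Continuous.prodMk (Continuous.subtype_mk (Continuous.subtype_mk
      (Continuous.prodMk ?_ ?_) _) _) ?_) _
    · exact hX1c.comp hc0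
    · exact continuous_snd.comp continuous_subtype_val
    · refine continuous_pi fun k => ?_
      rcases k with i | p
      · exact (hX1l i).comp hc0
      · exact (hX1e p).comp hc0
  · intro y
    apply Subtype.ext
    refine Prod.ext rfl (funext fun k => ?_)
    rcases k with i | p <;> rfl

theorem asph_SF {ι κ : Type} [Finite ι] [Finite κ] {m : ℕ} (hm : m ≠ 0) {z : ι → ℂ} {d : κ → ℂ}
    (hz : ∀ i j, i ≠ j → g (z i - z j) ≠ 0) (hd : ∀ a b, a ≠ b → g (d a - d b) ≠ 0)
    (hzd : ∀ i a, g (z i - d a) ≠ 0) : Asph (SF m z d) := by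
  cases nonempty_fintype ι
  cases nonempty_fintype κ
  intro N hN
  refine ext_exh (by omega) (fun y => ‖y.1.1‖)
    (continuous_fst.comp continuous_subtype_val).norm fun R0 => ?_
  have hs : ∀ i, ‖z i‖ ≤ ∑ j, ‖z j‖ := fun i =>
    Finset.single_le_sum (f := fun j => ‖z j‖) (fun j _ => norm_nonneg _) (Finset.mem_univ i)
  have h0 : 0 ≤ ∑ j, ‖z j‖ := Finset.sum_nonneg fun j _ => norm_nonneg _
  refine ⟨|R0| + 1 + ∑ j, ‖z j‖, ?_, ?_⟩
  · linarith [le_abs_self R0]
  · exact ext_disc hm hz hd hzd (by positivity) (fun i => by linarith [hs i, abs_nonneg R0]) hN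

end TOR4
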