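import Pool.Agent.TOR4.GB

/-!
# TOR4/TrT: transport (copy of ASP87/TTr with `z - z'` replaced by `g (z - z')`, `D = univ`)
-/

namespace TOR4

open Complex Topology Set ASP87

variable {A R : Type*} {S : SysT A R} {m : ℕ}

private lemma ttrT_q {N : Type*} [TopologicalSpace N] {H : N → ℂ → ℂ} (h : MFT H) (n : N)
    {z z' : ℂ} (hne : g (z - z') ≠ 0) :
    g (H n z - H n z') / g (z - z') ∈ slitPlane ∧ g (H n z - H n z') / g (z - z') ≠ 0 ∧
      g (H n z - H n z') ≠ 0 := by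
  have h1 := h.mono n z z' hne
  have h2 : g (H n z - H n z') / g (z - z') ≠ 0 := by
    intro h3
    rw [h3] at h1
    simp at h1
  refine ⟨Or.inl h1, h2, ?_⟩
  intro h3
  rw [h3, zero_div] at h2
  exact h2 rfl

private lemma ttrT_exp (hm : m ≠ 0) {w : ℂ} (hw : w ≠ 0) : exp (log w / m) ^ m = w := by
  rw [← exp_nat_mul, mul_div_cancel₀, exp_log hw]
  exact_mod_cast hm

theorem trT_mem {N : Type*} [TopologicalSpace N] {H : N → ℂ → ℂ} (h : MFT H) (hm : m ≠ 0) (n : N)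
    {y : (A → ℂ) × (R → ℂ)} (hy : y ∈ GT m S) : trT m S (H n) y ∈ GT m S := by
  obtain ⟨h2, h3⟩ := hy
  refine ⟨fun r => ?_, fun a b hab => ?_⟩
  · show (y.2 r * exp (log
      (g (H n (y.1 (S.src r)) - H n (y.1 (S.tgt r))) / g (y.1 (S.src r) - y.1 (S.tgt r))) / m)) ^ m =
      g (H n (y.1 (S.src r)) - H n (y.1 (S.tgt r)))
    rw [mul_pow, h2 r]
    by_cases he : g (y.1 (S.src r) - y.1 (S.tgt r)) = 0
    · rw [he, zero_mul, h.per n _ _ he]
    · obtain ⟨_, h5, _⟩ := ttrT_q h n he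
      rw [ttrT_exp hm h5, mul_div_cancel₀ _ he]
  · exact (ttrT_q h n (h3 a b hab)).2.2

theorem trT_cont {N : Type*} [TopologicalSpace N] {H : N → ℂ → ℂ} (h : MFT H) (hm : m ≠ 0) :
    ContinuousOn (fun q : N × ((A → ℂ) × (R → ℂ)) => trT m S (H q.1) q.2) (univ ×ˢ GT m S) := by
  have hc : ∀ a : A, Continuous (fun q : N × ((A → ℂ) × (R → ℂ)) => q.2.1 a) := fun a =>
    (continuous_apply a).comp (continuous_fst.comp continuous_snd)
  have hpos : ∀ a : A, Continuous (fun q : N × ((A → ℂ) × (R → ℂ)) => H q.1 (q.2.1 a)) := by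
    intro a
    exact h.cont.comp (continuous_fst.prodMk (hc a))
  refine ContinuousOn.prodMk (continuous_pi hpos).continuousOn (continuousOn_pi.2 fun r => ?_)
  have hs : Continuous (fun q : N × ((A → ℂ) × (R → ℂ)) => q.2.2 r) :=
    (continuous_apply r).comp (continuous_snd.comp continuous_snd)
  have hgH : Continuous (fun q : N × ((A → ℂ) × (R → ℂ)) =>
      g (H q.1 (q.2.1 (S.src r)) - H q.1 (q.2.1 (S.tgt r)))) := g_cont.comp ((hpos _).sub (hpos _))
  have hg : Continuous (fun q : N × ((A → ℂ) × (R → ℂ)) =>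
      g (q.2.1 (S.src r) - q.2.1 (S.tgt r))) := g_cont.comp ((hc _).sub (hc _))
  intro p hp
  obtain ⟨h2, h3⟩ := hp.2
  by_cases he : g (p.2.1 (S.src r) - p.2.1 (S.tgt r)) = 0
  · -- the two points coincide mod the lattice
    have hs0 : p.2.2 r = 0 := by
      have h4 := h2 r
      rw [he] at h4
      exact (pow_eq_zero_iff hm).1 h4
    show Filter.Tendsto _ _ _
    simp only [hs0, zero_mul]
    -- the `m`-th power tends to zero
    have h6 : Filter.Tendsto (fun q : N × ((A → ℂ) × (R → ℂ)) =>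
        ‖g (H q.1 (q.2.1 (S.src r)) - H q.1 (q.2.1 (S.tgt r)))‖) (𝓝[univ ×ˢ GT m S] p) (𝓝 0) := by
      have h7 := (hgH.norm.tendsto p).mono_left (nhdsWithin_le_nhds (s := univ ×ˢ GT m S))
      rwa [h.per p.1 _ _ he, norm_zero] at h7
    have h8 : Filter.Tendsto (fun q : N × ((A → ℂ) × (R → ℂ)) =>
        ‖q.2.2 r * exp (log (g (H q.1 (q.2.1 (S.src r)) - H q.1 (q.2.1 (S.tgt r))) /
          g (q.2.1 (S.src r) - q.2.1 (S.tgt r))) / m)‖ ^ m) (𝓝[univ ×ˢ GT m S] p) (𝓝 0) := by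
      refine h6.congr' ?_
      filter_upwards [self_mem_nhdsWithin] with q hq
      rw [← norm_pow]
      exact congrArg norm ((trT_mem h hm q.1 hq.2).1 r).symm
    have h9 : Filter.Tendsto (fun q : N × ((A → ℂ) × (R → ℂ)) =>
        ‖q.2.2 r * exp (log (g (H q.1 (q.2.1 (S.src r)) - H q.1 (q.2.1 (S.tgt r))) /
          g (q.2.1 (S.src r) - q.2.1 (S.tgt r))) / m)‖) (𝓝[univ ×ˢ GT m S] p) (𝓝 0) := by
      have h10 := h8.rpow_const (p := (1 : ℝ) / m) (Or.inr (by positivity))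
      have hm' : (0 : ℝ) < 1 / m := by positivity
      rw [Real.zero_rpow hm'.ne'] at h10
      refine h10.congr fun q => ?_
      rw [← Real.rpow_natCast, ← Real.rpow_mul (norm_nonneg _), mul_one_div_cancel, Real.rpow_one]
      exact_mod_cast hm
    exact tendsto_zero_iff_norm_tendsto_zero.2 h9
  · obtain ⟨h4, h5, h6⟩ := ttrT_q h p.1 he
    have h7 : ContinuousWithinAt (fun q : N × ((A → ℂ) × (R → ℂ)) =>
        g (H q.1 (q.2.1 (S.src r)) - H q.1 (q.2.1 (S.tgt r))) /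
          g (q.2.1 (S.src r) - q.2.1 (S.tgt r))) (univ ×ˢ GT m S) p :=
      (hgH.continuousWithinAt).div (hg.continuousWithinAt) he
    have h8 : ContinuousWithinAt (fun q : N × ((A → ℂ) × (R → ℂ)) => exp (log
        (g (H q.1 (q.2.1 (S.src r)) - H q.1 (q.2.1 (S.tgt r))) /
          g (q.2.1 (S.src r) - q.2.1 (S.tgt r))) / m)) (univ ×ˢ GT m S) p :=
      continuous_exp.continuousAt.comp_continuousWithinAt ((h7.clog h4).div_const _)
    exact hs.continuousWithinAt.mul h8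

theorem trT_inv {N : Type*} [TopologicalSpace N] {H : N → ℂ → ℂ} (h : MFT H) (hm : m ≠ 0) (n : N)
    {K : ℂ → ℂ} (hK : ∀ z, K (H n z) = z) {y : (A → ℂ) × (R → ℂ)} (hy : y ∈ GT m S) :
    trT m S K (trT m S (H n) y) = y := by
  obtain ⟨h2, h3⟩ := hy
  refine Prod.ext (funext fun a => hK _) (funext fun r => ?_)
  show (y.2 r * exp (log (g (H n (y.1 (S.src r)) - H n (y.1 (S.tgt r))) /
      g (y.1 (S.src r) - y.1 (S.tgt r))) / m)) *
      exp (log (g (K (H n (y.1 (S.src r))) - K (H n (y.1 (S.tgt r)))) /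
        g (H n (y.1 (S.src r)) - H n (y.1 (S.tgt r)))) / m) = y.2 r
  rw [hK, hK]
  by_cases he : g (y.1 (S.src r) - y.1 (S.tgt r)) = 0
  · have hs0 : y.2 r = 0 := by
      have h4 := h2 r
      rw [he] at h4
      exact (pow_eq_zero_iff hm).1 h4
    rw [hs0, zero_mul, zero_mul]
  · obtain ⟨h4, h5, h6⟩ := ttrT_q h n he
    have h7 : g (y.1 (S.src r) - y.1 (S.tgt r)) /
        g (H n (y.1 (S.src r)) - H n (y.1 (S.tgt r))) =
        (g (H n (y.1 (S.src r)) - H n (y.1 (S.tgt r))) /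
          g (y.1 (S.src r) - y.1 (S.tgt r)))⁻¹ := by
      rw [inv_div]
    rw [h7, log_inv _ (mem_slitPlane_iff_arg.1 h4).1, mul_assoc, ← exp_add, ← add_div,
      add_neg_cancel, zero_div, exp_zero, mul_one]

end TOR4
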